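import Pool.Agent.TH417.Nut.Six

set_option autoImplicit false

open Finset

namespace Pool.Agent.TH417.Nut

theorem avoid {k : ℕ} [NeZero k] (S : Finset (ZMod k)) (m : ℕ) (h : m + S.card ≤ k) :
    ∃ B : Finset (ZMod k), B.card = m ∧ ∀ t ∈ S, t ∉ B := by
  have h1 : m ≤ (Finset.univ \ S).card := by
    rw [Finset.card_sdiff_of_subset (Finset.subset_univ _), Finset.card_univ, ZMod.card]
    omega
  obtain ⟨B, hB, hc⟩ := Finset.exists_subset_card_eq h1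
  exact ⟨B, hc, fun t ht hb => (Finset.mem_sdiff.1 (hB hb)).2 ht⟩

theorem avoid_sym {k : ℕ} [NeZero k] (hk : k % 2 = 1) (S : Finset (ZMod k)) (h0 : 0 ∈ S)
    (hS : ∀ t ∈ S, -t ∈ S) (m : ℕ) (h : 2 * m + S.card ≤ k) :
    ∃ B : Finset (ZMod k), B.card = 2 * m ∧ (∀ t ∈ B, -t ∈ B) ∧ ∀ t ∈ S, t ∉ B := by
  have h1 : 2 * m ≤ (Finset.univ \ S).card := by
    rw [Finset.card_sdiff_of_subset (Finset.subset_univ _), Finset.card_univ, ZMod.card]
    omega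
  obtain ⟨B, hB, hs, hc⟩ := exists_sym hk (Finset.univ \ S) (by simp [h0]) (by
    intro t ht
    rw [Finset.mem_sdiff] at ht ⊢
    exact ⟨Finset.mem_univ _, fun h => ht.2 (by simpa using hS _ h)⟩) m h1
  exact ⟨B, hc, hs, fun t ht hb => (Finset.mem_sdiff.1 (hB hb)).2 ht⟩

theorem card_V {k : ℕ} [NeZero k] : Fintype.card (Fin 3 × ZMod k × Bool) = 6 * k := by
  rw [Fintype.card_prod, Fintype.card_prod, Fintype.card_bool, Fintype.card_fin, ZMod.card]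
  ring

theorem main3 (κ ζ : ℕ) (h1 : 1 ≤ ζ) (h2 : ζ + 1 ≤ 3 * κ) :
    HasNut (3 + 4 * ζ) (12 * κ + 6) := by
  have hκ : 1 ≤ κ := by omega
  obtain ⟨h, b, c, f, e1, e2, b1, b2, b3, b4, e3, e4⟩ : ∃ h b c f : ℕ, 2 * h + b + c = 2 * ζ ∧
      2 * c + 2 * f = 2 * ζ ∧ h ≤ κ ∧ b + 2 ≤ 2 * κ + 1 ∧ c ≤ 2 * κ ∧ f ≤ κ ∧ 2 * h ≠ b + 1 ∧
      2 * ζ ≠ 3 * c := by
    by_cases c1 : ζ ≤ κ
    · exact ⟨ζ, 0, 0, ζ, by omega, by omega, by omega, by omega, by omega, by omega, by omega,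
        by omega⟩
    · by_cases c2 : ζ + 2 ≤ 3 * κ
      · exact ⟨κ, ζ - κ, ζ - κ, κ, by omega, by omega, by omega, by omega, by omega, by omega,
          by omega, by omega⟩
      · exact ⟨κ, 2 * κ - 2, 2 * κ, κ - 1, by omega, by omega, by omega, by omega, by omega,
          by omega, by omega, by omega⟩
  have : NeZero (2 * κ + 1) := ⟨by omega⟩
  have hk : (2 * κ + 1) % 2 = 1 := by omega
  have hc1 : ({0} : Finset (ZMod (2 * κ + 1))).card = 1 := rfl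
  have hc2 : ({1, -1} : Finset (ZMod (2 * κ + 1))).card = 2 := Finset.card_pair (one_ne (by omega))
  obtain ⟨H, cH, sH, nH⟩ := avoid_sym hk ({0} : Finset (ZMod (2 * κ + 1))) (by simp) (by simp) h
    (by omega)
  obtain ⟨F, cF, sF, nF⟩ := avoid_sym hk ({0} : Finset (ZMod (2 * κ + 1))) (by simp) (by simp) f
    (by omega)
  obtain ⟨B, cB, nB⟩ := avoid ({1, -1} : Finset (ZMod (2 * κ + 1))) b (by omega)
  obtain ⟨C, cC, nC⟩ := avoid ({0} : Finset (ZMod (2 * κ + 1))) c (by omega)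
  have hm := nut3 (k := 2 * κ + 1) hk (by omega) H B C F sH sF (nH 0 (by simp)) (nF 0 (by simp))
    (nC 0 (by simp)) (nB 1 (by simp)) (nB (-1) (by simp)) (2 * ζ) (by omega) (by omega) (by omega)
    (by omega)
  refine ⟨_, inferInstance, inferInstance, _, inferInstance, ?_, ?_, hm.2⟩
  · rw [card_V]; ring
  · have : 3 + 4 * ζ = 3 + 2 * (2 * ζ) := by ring
    rw [this]
    exact hm.1

theorem main5 (κ ζ : ℕ) (hκ : 2 ≤ κ) (h2 : ζ + 1 ≤ 3 * κ) :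
    HasNut (5 + 4 * ζ) (12 * κ + 6) := by
  obtain ⟨h, b, c, f, e1, e2, b1, b2, b3, b4, e3, e4⟩ : ∃ h b c f : ℕ, 2 * h + b + c = 2 * ζ ∧
      2 * c + 2 * f = 2 * ζ ∧ h ≤ κ ∧ b + 3 ≤ 2 * κ + 1 ∧ c ≤ 2 * κ ∧ f + 1 ≤ κ ∧ 2 * h ≠ b + 1 ∧
      2 * ζ + 1 ≠ 3 * c := by
    by_cases c1 : ζ + 1 ≤ κ
    · exact ⟨ζ, 0, 0, ζ, by omega, by omega, by omega, by omega, by omega, by omega, by omega,
        by omega⟩
    · by_cases c2 : ζ = κ
      · exact ⟨κ - 1, 0, 2, κ - 2, by omega, by omega, by omega, by omega, by omega, by omega,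
          by omega, by omega⟩
      · by_cases c3 : ζ + 2 = 3 * κ
        · exact ⟨κ, 2 * κ - 4, 2 * κ, κ - 2, by omega, by omega, by omega, by omega, by omega,
            by omega, by omega, by omega⟩
        · exact ⟨κ, ζ - κ - 1, ζ - κ + 1, κ - 1, by omega, by omega, by omega, by omega, by omega,
            by omega, by omega, by omega⟩
  have : NeZero (2 * κ + 1) := ⟨by omega⟩
  have hk : (2 * κ + 1) % 2 = 1 := by omega
  have hk5 : 5 ≤ 2 * κ + 1 := by omega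
  have hc1 : ({0} : Finset (ZMod (2 * κ + 1))).card = 1 := rfl
  have hc2 : ({-1, 1, 2} : Finset (ZMod (2 * κ + 1))).card = 3 := by
    rw [Finset.card_eq_sum_ones, sum_t1 hk5]; rfl
  have hc3 : ({0, 1, -1} : Finset (ZMod (2 * κ + 1))).card = 3 := by
    rw [Finset.card_eq_sum_ones, sum_t3 hk5]; rfl
  obtain ⟨H, cH, sH, nH⟩ := avoid_sym hk ({0} : Finset (ZMod (2 * κ + 1))) (by simp) (by simp) h
    (by omega)
  obtain ⟨F, cF, sF, nF⟩ := avoid_sym hk ({0, 1, -1} : Finset (ZMod (2 * κ + 1))) (by simp)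
    (by
      intro t ht
      simp only [Finset.mem_insert, Finset.mem_singleton] at ht ⊢
      rcases ht with rfl | rfl | rfl <;> simp) f (by omega)
  obtain ⟨B, cB, nB⟩ := avoid ({-1, 1, 2} : Finset (ZMod (2 * κ + 1))) b (by omega)
  obtain ⟨C, cC, nC⟩ := avoid ({0} : Finset (ZMod (2 * κ + 1))) c (by omega)
  have hm := nut5 (k := 2 * κ + 1) hk hk5 H B C F sH sF (nH 0 (by simp)) (nF 0 (by simp))
    (nF 1 (by simp)) (nC 0 (by simp)) (nB 1 (by simp)) (nB (-1) (by simp)) (nB 2 (by simp))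
    (2 * ζ) (by omega) (by omega) (by omega) (by omega)
  refine ⟨_, inferInstance, inferInstance, _, inferInstance, ?_, ?_, hm.2⟩
  · rw [card_V]; ring
  · have : 5 + 4 * ζ = 5 + 2 * (2 * ζ) := by ring
    rw [this]
    exact hm.1

theorem main6 (κ ζ : ℕ) (hκ : 2 ≤ κ) (h1 : 1 ≤ ζ) (h2 : ζ + 2 ≤ 3 * κ)
    (h3 : ¬ (κ = 2 ∧ ζ = 3)) : HasNut (6 + 4 * ζ) (12 * κ + 6) := by
  obtain ⟨h, b, c, f, e1, e2, b1, b2, b3, b4, e3, e4⟩ : ∃ h b c f : ℕ, 2 * h + b + c = 2 * ζ ∧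
      2 * c + 2 * f = 2 * ζ ∧ h ≤ κ ∧ b + 3 ≤ 2 * κ + 1 ∧ c + 2 ≤ 2 * κ + 1 ∧ f + 1 ≤ κ ∧
      2 * h ≠ b + 1 ∧ 2 * ζ ≠ 3 * c := by
    by_cases c1 : ζ + 1 ≤ κ
    · exact ⟨ζ, 0, 0, ζ, by omega, by omega, by omega, by omega, by omega, by omega, by omega,
        by omega⟩
    · by_cases c2 : ζ = κ
      · by_cases c4 : κ = 3
        · exact ⟨κ - 1, 1, 1, κ - 1, by omega, by omega, by omega, by omega, by omega, by omega,
            by omega, by omega⟩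
        · exact ⟨κ - 1, 0, 2, κ - 2, by omega, by omega, by omega, by omega, by omega, by omega,
            by omega, by omega⟩
      · by_cases c3 : ζ + 3 = 3 * κ
        · exact ⟨κ, 2 * κ - 5, 2 * κ - 1, κ - 2, by omega, by omega, by omega, by omega, by omega,
            by omega, by omega, by omega⟩
        · exact ⟨κ, ζ - κ - 1, ζ - κ + 1, κ - 1, by omega, by omega, by omega, by omega, by omega,
            by omega, by omega, by omega⟩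
  have : NeZero (2 * κ + 1) := ⟨by omega⟩
  have hk : (2 * κ + 1) % 2 = 1 := by omega
  have hk5 : 5 ≤ 2 * κ + 1 := by omega
  have hc1 : ({0} : Finset (ZMod (2 * κ + 1))).card = 1 := rfl
  have hc2 : ({0, 1} : Finset (ZMod (2 * κ + 1))).card = 2 := Finset.card_pair (n01 hk5)
  have hc3 : ({0, 1, -1} : Finset (ZMod (2 * κ + 1))).card = 3 := by
    rw [Finset.card_eq_sum_ones, sum_t3 hk5]; rfl
  obtain ⟨H, cH, sH, nH⟩ := avoid_sym hk ({0} : Finset (ZMod (2 * κ + 1))) (by simp) (by simp) h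
    (by omega)
  obtain ⟨F, cF, sF, nF⟩ := avoid_sym hk ({0, 1, -1} : Finset (ZMod (2 * κ + 1))) (by simp)
    (by
      intro t ht
      simp only [Finset.mem_insert, Finset.mem_singleton] at ht ⊢
      rcases ht with rfl | rfl | rfl <;> simp) f (by omega)
  obtain ⟨B, cB, nB⟩ := avoid ({0, 1, -1} : Finset (ZMod (2 * κ + 1))) b (by omega)
  obtain ⟨C, cC, nC⟩ := avoid ({0, 1} : Finset (ZMod (2 * κ + 1))) c (by omega)
  have hm := nut6 (k := 2 * κ + 1) hk hk5 H B C F sH sF (nH 0 (by simp)) (nF 0 (by simp))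
    (nF 1 (by simp)) (nC 0 (by simp)) (nC 1 (by simp)) (nB 0 (by simp)) (nB 1 (by simp))
    (nB (-1) (by simp)) (2 * ζ) (by omega) (by omega) (by omega) (by omega)
  refine ⟨_, inferInstance, inferInstance, _, inferInstance, ?_, ?_, hm.2⟩
  · rw [card_V]; ring
  · have : 6 + 4 * ζ = 6 + 2 * (2 * ζ) := by ring
    rw [this]
    exact hm.1

/-- the main theorem -/
theorem main (ρ n : ℕ) (hn : n % 12 = 6)
    (h : (ρ % 4 = 3 ∧ 7 ≤ ρ ∧ ρ + 7 ≤ n) ∨ (ρ % 4 = 1 ∧ 5 ≤ ρ ∧ ρ + 5 ≤ n ∧ 30 ≤ n) ∨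
      (ρ % 4 = 2 ∧ 10 ≤ ρ ∧ ρ + 8 ≤ n ∧ 30 ≤ n ∧ ¬ (n = 30 ∧ ρ = 18))) : HasNut ρ n := by
  obtain ⟨κ, rfl⟩ : ∃ κ, n = 12 * κ + 6 := ⟨n / 12, by omega⟩
  rcases h with h | h | h
  · obtain ⟨ζ, rfl⟩ : ∃ ζ, ρ = 3 + 4 * ζ := ⟨(ρ - 3) / 4, by omega⟩
    exact main3 κ ζ (by omega) (by omega)
  · obtain ⟨ζ, rfl⟩ : ∃ ζ, ρ = 5 + 4 * ζ := ⟨(ρ - 5) / 4, by omega⟩
    exact main5 κ ζ (by omega) (by omega)
  · obtain ⟨ζ, rfl⟩ : ∃ ζ, ρ = 6 + 4 * ζ := ⟨(ρ - 6) / 4, by omega⟩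
    exact main6 κ ζ (by omega) (by omega) (by omega) (by omega)

end Pool.Agent.TH417.Nut
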