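import Pool.Agent.TH417.Nut.NoThree
import Pool.Agent.TH417.Nut.Final

set_option autoImplicit false

open Finset

namespace Pool.Agent.TH417.Nut

theorem sum_mulVec {V : Type} [Fintype V] [DecidableEq V] (G : SimpleGraph V)
    [DecidableRel G.Adj] (ρ : ℕ) (hr : G.IsRegularOfDegree ρ) (y : V → ℝ) :
    ∑ v, (G.adjMatrix ℝ).mulVec y v = ρ * ∑ v, y v := by
  have h1 : ∀ v, (G.adjMatrix ℝ).mulVec y v = ∑ w, (if G.Adj v w then y w else 0) := by
    intro v
    simp only [Matrix.mulVec, dotProduct, SimpleGraph.adjMatrix_apply]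
    refine Finset.sum_congr rfl fun w _ => ?_
    split_ifs <;> simp
  rw [Finset.sum_congr rfl fun v _ => h1 v, Finset.sum_comm, Finset.mul_sum]
  refine Finset.sum_congr rfl fun w _ => ?_
  have h2 : ∑ v, (if G.Adj v w then y w else 0) = ∑ v, (if G.Adj w v then (1 : ℝ) else 0) * y w := by
    refine Finset.sum_congr rfl fun v _ => ?_
    by_cases h : G.Adj w v
    · simp [h, h.symm]
    · have h' : ¬ G.Adj v w := fun h' => h h'.symm
      simp [h, h']
  rw [h2, ← Finset.sum_mul]
  congr 1
  rw [Finset.sum_boole, ← hr w, ← SimpleGraph.card_neighborFinset_eq_degree,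
    SimpleGraph.neighborFinset_eq_filter]

theorem compl_split {V : Type} [Fintype V] [DecidableEq V] (G : SimpleGraph V)
    [DecidableRel G.Adj] (y : V → ℝ) (v : V) :
    (G.adjMatrix ℝ).mulVec y v + (y v + ∑ w ∈ Gᶜ.neighborFinset v, y w) = ∑ w, y w := by
  rw [SimpleGraph.adjMatrix_mulVec_apply]
  have h1 : (Finset.univ : Finset V) = G.neighborFinset v ∪ insert v (Gᶜ.neighborFinset v) := by
    ext w
    simp only [Finset.mem_univ, Finset.mem_union, Finset.mem_insert,
      SimpleGraph.mem_neighborFinset, SimpleGraph.compl_adj, true_iff]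
    by_cases h : G.Adj v w
    · exact Or.inl h
    · by_cases h2 : w = v
      · exact Or.inr (Or.inl h2)
      · exact Or.inr (Or.inr ⟨fun h3 => h2 h3.symm, h⟩)
  have hd : Disjoint (G.neighborFinset v) (insert v (Gᶜ.neighborFinset v)) := by
    rw [Finset.disjoint_left]
    intro w hw hw2
    rw [SimpleGraph.mem_neighborFinset] at hw
    rw [Finset.mem_insert, SimpleGraph.mem_neighborFinset, SimpleGraph.compl_adj] at hw2
    rcases hw2 with rfl | hw2
    · exact G.irrefl hw
    · exact hw2.2 hw
  rw [h1, Finset.sum_union hd, Finset.sum_insert]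
  rw [SimpleGraph.mem_neighborFinset]
  exact Gᶜ.irrefl

theorem ker_iff {V : Type} [Fintype V] [DecidableEq V] (G : SimpleGraph V)
    [DecidableRel G.Adj] (ρ : ℕ) (h0 : 1 ≤ ρ) (hr : G.IsRegularOfDegree ρ)
    (hn : Fintype.card V ≠ ρ) (y : V → ℝ) :
    (G.adjMatrix ℝ).mulVec y = 0 ↔ ∀ v, y v + ∑ w ∈ Gᶜ.neighborFinset v, y w = 0 := by
  have h1 := sum_mulVec G ρ hr y
  constructor
  · intro h v
    rw [h] at h1
    simp only [Pi.zero_apply, Finset.sum_const_zero] at h1
    have h2 : (ρ : ℝ) ≠ 0 := by positivity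
    have h3 := (mul_eq_zero.1 h1.symm).resolve_left h2
    have h4 := compl_split G y v
    rw [h, h3] at h4
    simpa using h4
  · intro h
    have h5 : ∀ v, (G.adjMatrix ℝ).mulVec y v = ∑ w, y w := by
      intro v
      have h4 := compl_split G y v
      rw [h v] at h4
      linarith
    rw [Finset.sum_congr rfl fun v _ => h5 v, Finset.sum_const, Finset.card_univ,
      nsmul_eq_mul] at h1
    have h6 : ((Fintype.card V : ℝ) - ρ) * ∑ w, y w = 0 := by linarith
    have h7 : ((Fintype.card V : ℝ) - ρ) ≠ 0 := by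
      intro h8
      apply hn
      have : (Fintype.card V : ℝ) = ρ := by linarith
      exact_mod_cast this
    funext v
    rw [h5 v, (mul_eq_zero.1 h6).resolve_left h7]
    rfl

/-- no regular nut graph has a 2-regular complement -/
theorem no_three {V : Type} [Fintype V] [DecidableEq V] (G : SimpleGraph V)
    [DecidableRel G.Adj] (ρ : ℕ) (h0 : 1 ≤ ρ) (hr : G.IsRegularOfDegree ρ)
    (hn : Fintype.card V = ρ + 3) : ¬ IsNut G := by
  rintro ⟨-, x, hx, hker⟩
  have hd : ∀ v, ∃ p q : V, p ≠ q ∧ Gᶜ.neighborFinset v = {p, q} := by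
    intro v
    have h1 : (Gᶜ.neighborFinset v).card = 2 := by
      rw [SimpleGraph.card_neighborFinset_eq_degree, hr.compl v]
      omega
    exact Finset.card_eq_two.1 h1
  choose a b hab hN using hd
  have hA : ∀ v w, Gᶜ.Adj v w ↔ w = a v ∨ w = b v := by
    intro v w
    rw [← SimpleGraph.mem_neighborFinset, hN]
    simp
  have hK : ∀ y : V → ℝ, (G.adjMatrix ℝ).mulVec y = 0 ↔ ∀ v, y v + y (a v) + y (b v) = 0 := by
    intro y
    rw [ker_iff G ρ h0 hr (by omega)]
    refine forall_congr' fun v => ?_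
    rw [hN, Finset.sum_pair (hab v), add_assoc]
  have hx0 : (G.adjMatrix ℝ).mulVec x = 0 := by
    have : x ∈ LinearMap.ker (G.adjMatrix ℝ).mulVecLin := by
      rw [hker]; exact Submodule.mem_span_singleton_self x
    simpa using this
  have : Nonempty V := Fintype.card_pos_iff.1 (by omega)
  refine core a b hab ?_ ?_ ?_ ?_ x hx ((hK x).1 hx0) ?_
  · intro v h
    have := (hA v (a v)).2 (Or.inl rfl)
    rw [h] at this
    exact Gᶜ.irrefl this
  · intro v h
    have := (hA v (b v)).2 (Or.inr rfl)
    rw [h] at this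
    exact Gᶜ.irrefl this
  · intro v
    have := ((hA v (a v)).2 (Or.inl rfl)).symm
    rw [hA] at this
    rcases this with h | h
    · exact Or.inl h.symm
    · exact Or.inr h.symm
  · intro v
    have := ((hA v (b v)).2 (Or.inr rfl)).symm
    rw [hA] at this
    rcases this with h | h
    · exact Or.inl h.symm
    · exact Or.inr h.symm
  · intro y hy
    have h1 : y ∈ LinearMap.ker (G.adjMatrix ℝ).mulVecLin := by
      have := (hK y).2 hy
      simpa using this
    rw [hker, Submodule.mem_span_singleton] at h1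
    obtain ⟨l, hl⟩ := h1
    exact ⟨l, fun v => by rw [← hl]; rfl⟩

/-- no complete graph is a nut graph -/
theorem no_one {V : Type} [Fintype V] [DecidableEq V] (G : SimpleGraph V)
    [DecidableRel G.Adj] (ρ : ℕ) (h0 : 1 ≤ ρ) (hr : G.IsRegularOfDegree ρ)
    (hn : Fintype.card V = ρ + 1) : ¬ IsNut G := by
  rintro ⟨-, x, hx, hker⟩
  have hx0 : (G.adjMatrix ℝ).mulVec x = 0 := by
    have : x ∈ LinearMap.ker (G.adjMatrix ℝ).mulVecLin := by
      rw [hker]; exact Submodule.mem_span_singleton_self x
    simpa using this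
  have : Nonempty V := Fintype.card_pos_iff.1 (by omega)
  obtain ⟨v⟩ := this
  have h1 := (ker_iff G ρ h0 hr (by omega) x).1 hx0 v
  have h2 : Gᶜ.neighborFinset v = ∅ := by
    rw [← Finset.card_eq_zero, SimpleGraph.card_neighborFinset_eq_degree, hr.compl v]
    omega
  rw [h2, Finset.sum_empty, add_zero] at h1
  exact hx v h1

/-- no regular nut graph has a 1-regular complement -/
theorem no_two {V : Type} [Fintype V] [DecidableEq V] (G : SimpleGraph V)
    [DecidableRel G.Adj] (ρ : ℕ) (h0 : 1 ≤ ρ) (hr : G.IsRegularOfDegree ρ)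
    (hn : Fintype.card V = ρ + 2) : ¬ IsNut G := by
  rintro ⟨-, x, hx, hker⟩
  have hd : ∀ v, ∃ p : V, Gᶜ.neighborFinset v = {p} := by
    intro v
    have h1 : (Gᶜ.neighborFinset v).card = 1 := by
      rw [SimpleGraph.card_neighborFinset_eq_degree, hr.compl v]
      omega
    exact Finset.card_eq_one.1 h1
  choose a hN using hd
  have hA : ∀ v w, Gᶜ.Adj v w ↔ w = a v := by
    intro v w
    rw [← SimpleGraph.mem_neighborFinset, hN]
    simp
  have haa : ∀ v, a (a v) = v := by
    intro v
    have := ((hA v (a v)).2 rfl).symm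
    rw [hA] at this
    exact this.symm
  have hav : ∀ v, a v ≠ v := by
    intro v h
    have := (hA v (a v)).2 rfl
    rw [h] at this
    exact Gᶜ.irrefl this
  have hK : ∀ y : V → ℝ, (G.adjMatrix ℝ).mulVec y = 0 ↔ ∀ v, y v + y (a v) = 0 := by
    intro y
    rw [ker_iff G ρ h0 hr (by omega)]
    refine forall_congr' fun v => ?_
    rw [hN, Finset.sum_singleton]
  have : Nonempty V := Fintype.card_pos_iff.1 (by omega)
  obtain ⟨v⟩ := this
  obtain ⟨w, hw⟩ : ∃ w, w ∉ ({v, a v} : Finset V) := by
    by_contra hcon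
    push Not at hcon
    have h1 := Finset.card_le_card (fun w _ => hcon w : (Finset.univ : Finset V) ⊆ {v, a v})
    have h2 := Finset.card_le_two (a := v) (b := a v)
    rw [Finset.card_univ] at h1
    omega
  simp only [Finset.mem_insert, Finset.mem_singleton, not_or] at hw
  let y : V → ℝ := fun u => if u = v then 1 else if u = a v then -1 else 0
  have hy : ∀ u, y u + y (a u) = 0 := by
    intro u
    simp only [y]
    by_cases h1 : u = v
    · subst h1
      simp [hav u]
    · by_cases h2 : u = a v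
      · subst h2
        simp [haa, hav v]
      · have h3 : a u ≠ v := fun h => h2 (by rw [← h, haa])
        have h4 : a u ≠ a v := fun h => h1 (by rw [← haa u, h, haa])
        simp [h1, h2, h3, h4]
  have h1 : y ∈ LinearMap.ker (G.adjMatrix ℝ).mulVecLin := by
    have := (hK y).2 hy
    simpa using this
  rw [hker, Submodule.mem_span_singleton] at h1
  obtain ⟨l, hl⟩ := h1
  have e1 : l * x w = 0 := by
    have := congrFun hl w
    simpa [y, hw.1, hw.2] using this
  have e2 : l * x v = 1 := by
    have := congrFun hl v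
    simpa [y] using this
  have e3 := (mul_eq_zero.1 e1).resolve_right (hx w)
  rw [e3, zero_mul] at e2
  exact zero_ne_one e2

/-- the order of a `ρ`-regular nut graph is at least `ρ + 4` -/
theorem lower (ρ n : ℕ) (h0 : 1 ≤ ρ) (h : HasNut ρ n) : ρ + 4 ≤ n := by
  obtain ⟨V, _, _, G, _, hc, hr, hN⟩ := h
  by_contra hcon
  have : Nonempty V := Fintype.card_pos_iff.1 (by have := hN.1; omega)
  obtain ⟨v⟩ := this
  have h1 : ρ < Fintype.card V := by
    rw [← hr v]; exact G.degree_lt_card_verts v
  have h2 : n = ρ + 1 ∨ n = ρ + 2 ∨ n = ρ + 3 := by omega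
  rcases h2 with h2 | h2 | h2
  · exact no_one G ρ h0 hr (by omega) hN
  · exact no_two G ρ h0 hr (by omega) hN
  · exact no_three G ρ h0 hr (by omega) hN

/-- Odd degrees: the exact set of orders in the class `6` modulo `12`. -/
theorem exact (ρ n : ℕ) (hn : n % 12 = 6) (h30 : 30 ≤ n) (ho : ρ % 2 = 1) (h7 : 7 ≤ ρ) :
    HasNut ρ n ↔ ρ + 5 ≤ n := by
  constructor
  · intro h
    have := lower ρ n (by omega) h
    omega
  · intro h
    apply main ρ n hn
    have : ρ % 4 = 1 ∨ ρ % 4 = 3 := by omega
    rcases this with h1 | h1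
    · exact Or.inr (Or.inl ⟨h1, by omega, h, h30⟩)
    · exact Or.inl ⟨h1, h7, by omega⟩

end Pool.Agent.TH417.Nut
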