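import Pool.Agent.TH417.Nut.Gen

set_option autoImplicit false

open Finset

namespace Pool.Agent.TH417.Nut

variable {k : ℕ} [NeZero k]

omit [NeZero k] in
theorem nz (n : ℕ) (h0 : 0 < n) (h : n < k) : ((n : ℕ) : ZMod k) ≠ 0 := by
  intro h1
  rw [ZMod.natCast_eq_zero_iff] at h1
  have := Nat.le_of_dvd h0 h1
  omega

omit [NeZero k] in
theorem n01 (hk : 5 ≤ k) : (0 : ZMod k) ≠ 1 := by
  intro h
  apply nz (k := k) 1 (by norm_num) (by omega)
  push_cast
  exact h.symm

omit [NeZero k] in
theorem n12 (hk : 5 ≤ k) : (1 : ZMod k) ≠ 2 := by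
  intro h
  apply nz (k := k) 1 (by norm_num) (by omega)
  push_cast
  linear_combination -h

omit [NeZero k] in
theorem nm2 (hk : 5 ≤ k) : (-1 : ZMod k) ≠ 2 := by
  intro h
  apply nz (k := k) 3 (by norm_num) (by omega)
  push_cast
  linear_combination -h

omit [NeZero k] in
theorem sum_t1 {A : Type} [AddCommMonoid A] (hk : 5 ≤ k) (f : ZMod k → A) :
    ∑ t ∈ ({-1, 1, 2} : Finset (ZMod k)), f t = f (-1) + (f 1 + f 2) := by
  have h1 : (-1 : ZMod k) ∉ ({1, 2} : Finset (ZMod k)) := by
    simp only [Finset.mem_insert, Finset.mem_singleton, not_or]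
    exact ⟨fun h => one_ne (k := k) (by omega) h.symm, nm2 hk⟩
  rw [Finset.sum_insert h1, Finset.sum_pair (n12 hk)]

omit [NeZero k] in
theorem sum_t2 {A : Type} [AddCommMonoid A] (hk : 5 ≤ k) (f : ZMod k → A) :
    ∑ t ∈ ({1, -1, -2} : Finset (ZMod k)), f t = f 1 + (f (-1) + f (-2)) := by
  have h1 : (1 : ZMod k) ∉ ({-1, -2} : Finset (ZMod k)) := by
    simp only [Finset.mem_insert, Finset.mem_singleton, not_or]
    exact ⟨one_ne (by omega), fun h => nm2 hk (by rw [h]; simp)⟩
  have h2 : (-1 : ZMod k) ≠ -2 := fun h => n12 hk (neg_injective h)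
  rw [Finset.sum_insert h1, Finset.sum_pair h2]

omit [NeZero k] in
theorem sum_t3 {A : Type} [AddCommMonoid A] (hk : 5 ≤ k) (f : ZMod k → A) :
    ∑ t ∈ ({0, 1, -1} : Finset (ZMod k)), f t = f 0 + (f 1 + f (-1)) := by
  have h1 : (0 : ZMod k) ∉ ({1, -1} : Finset (ZMod k)) := by
    simp only [Finset.mem_insert, Finset.mem_singleton, not_or]
    exact ⟨n01 hk, fun h => n01 hk (by rw [← neg_neg (1 : ZMod k), ← h, neg_zero])⟩
  rw [Finset.sum_insert h1, Finset.sum_pair (one_ne (by omega))]

/-- the data of the second design -/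
def mk5 (h01 : (0 : ZMod k) ≠ 1) (H B C F : Finset (ZMod k)) (hH : ∀ t ∈ H, -t ∈ H)
    (hF : ∀ t ∈ F, -t ∈ F) (H0 : 0 ∉ H) (F0 : 0 ∉ F) (F1 : 1 ∉ F) (C0 : 0 ∉ C)
    (B1 : 1 ∉ B) (B2 : -1 ∉ B) (B3 : 2 ∉ B) : Data k where
  q := ![![H, B, C], ![B.image (fun t => -t), H, C],
    ![C.image (fun t => -t), C.image (fun t => -t), F]]
  P := ![![∅, {-1, 1, 2}, {0}], ![{1, -1, -2}, ∅, {0}], ![{0}, {0}, {1, -1}]]
  R := ![![{0}, ∅, ∅], ![∅, {0}, ∅], ![∅, ∅, {0}]]
  hq := by
    intro a b t ht
    fin_cases a <;> fin_cases b <;> simp at ht ⊢ <;>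
      first
        | exact hH _ ht
        | exact hF _ ht
        | exact ht
        | (obtain ⟨u, hu, rfl⟩ := ht; simpa using hu)
  hP := by
    intro a b t ht
    fin_cases a <;> fin_cases b <;> simp at ht ⊢ <;>
      first
        | exact ht
        | (rcases ht with rfl | rfl <;> simp)
        | (rcases ht with rfl | rfl | rfl <;> simp)
  hR := by
    intro a b t ht
    fin_cases a <;> fin_cases b <;> simp at ht ⊢ <;> exact ht
  dP := by
    have F2 : -1 ∉ F := fun h => F1 (by simpa using hF _ h)
    intro a b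
    fin_cases a <;> fin_cases b <;> simp [C0, B1, B2, B3, F1, F2]
    intro x hx h
    exact B2 (neg_eq_iff_eq_neg.1 h ▸ hx)
  dR := by
    intro a b
    fin_cases a <;> fin_cases b <;> simp [F0, H0]
  q0 := by
    intro a
    fin_cases a <;> simp [H0, F0]
  P0 := by
    intro a
    fin_cases a <;> simp [h01, h01.symm]

theorem kernel5 (hk : k % 2 = 1) (r : Fin 3 → ZMod k → ZMod 2)
    (e0 : ∀ i, r 0 i + (r 1 (i - 1) + (r 1 (i + 1) + r 1 (i + 2))) + r 2 i = 0)
    (e1 : ∀ i, r 1 i + (r 0 (i + 1) + (r 0 (i - 1) + r 0 (i - 2))) + r 2 i = 0)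
    (e2 : ∀ i, r 0 i + r 1 i + (r 2 i + (r 2 (i + 1) + r 2 (i - 1))) = 0)
    (hs : ∀ a, ∑ i, r a i = 0) : ∀ a i, r a i = 0 := by
  have g2 : ∀ i, r 2 i + r 2 (i + 1) = 0 := by
    refine four_inj hk (fun i => r 2 i + r 2 (i + 1)) ?_ ?_
    · rw [Finset.sum_add_distrib, shift_sum, hs]; rfl
    · intro i
      have a0 := e0 (i + 2)
      have a1 := e1 (i + 3)
      have a2 := e2 (i + 1)
      have a3 := e2 (i + 4)
      have b1 : i + 2 - 1 = i + 1 := by ring
      have b2 : i + 2 + 1 = i + 3 := by ring
      have b3 : i + 2 + 2 = i + 4 := by ring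
      have b4 : i + 3 + 1 = i + 4 := by ring
      have b5 : i + 3 - 1 = i + 2 := by ring
      have b6 : i + 3 - 2 = i + 1 := by ring
      have b7 : i + 1 + 1 = i + 2 := by ring
      have b8 : i + 1 - 1 = i := by ring
      have b9 : i + 4 + 1 = i + 5 := by ring
      have b10 : i + 4 - 1 = i + 3 := by ring
      rw [b1, b2, b3] at a0
      rw [b4, b5, b6] at a1
      rw [b7, b8] at a2
      rw [b9, b10] at a3
      simp only [b9]
      generalize r 0 (i + 1) = x1 at *
      generalize r 0 (i + 2) = x2 at *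
      generalize r 0 (i + 4) = x4 at *
      generalize r 1 (i + 1) = y1 at *
      generalize r 1 (i + 3) = y3 at *
      generalize r 1 (i + 4) = y4 at *
      generalize r 2 i = z0 at *
      generalize r 2 (i + 1) = z1 at *
      generalize r 2 (i + 2) = z2 at *
      generalize r 2 (i + 3) = z3 at *
      generalize r 2 (i + 4) = z4 at *
      generalize r 2 (i + 5) = z5 at *
      have d1 := add_self_two x1
      have d2 := add_self_two x2
      have d4 := add_self_two x4
      have f1 := add_self_two y1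
      have f3 := add_self_two y3
      have f4 := add_self_two y4
      have h0 := add_self_two z0
      have h1 := add_self_two z1
      have h2 := add_self_two z2
      have h3 := add_self_two z3
      linear_combination a0 + a1 + a2 + a3 - d1 - d2 - d4 - f1 - f3 - f4 - h0 - h1 - h2 - h3
  have h2 : ∀ i, r 2 i = 0 := by
    refine const_zero hk _ (hs 2) (step_one _ ?_)
    intro i
    have := g2 i
    have c := add_self_two (r 2 i)
    linear_combination this - c
  have g0 : ∀ i, r 0 i + r 0 (i + 1) = 0 := by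
    refine const_zero hk (fun i => r 0 i + r 0 (i + 1)) ?_ (step_two hk _ ?_)
    · rw [Finset.sum_add_distrib, shift_sum, hs]; rfl
    · intro i
      have a1 := e1 (i + 2)
      have a2 := e2 (i + 2)
      have b1 : i + 2 + 1 = i + 3 := by ring
      have b2 : i + 2 - 1 = i + 1 := by ring
      have b3 : i + 2 - 2 = i := by ring
      rw [h2, b1, b2, b3] at a1
      rw [h2, h2, h2] at a2
      simp only [b1]
      have c0 := add_self_two (r 0 i)
      have c1 := add_self_two (r 0 (i + 1))
      have c2 := add_self_two (r 1 (i + 2))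
      linear_combination a1 + a2 - c0 - c1 - c2
  have h0 : ∀ i, r 0 i = 0 := by
    refine const_zero hk _ (hs 0) (step_one _ ?_)
    intro i
    have := g0 i
    have c := add_self_two (r 0 i)
    linear_combination this - c
  intro a i
  fin_cases a
  · exact h0 i
  · have := e2 i
    rw [h0, h2, h2, h2] at this
    simpa using this
  · exact h2 i

/-- the second design gives nut graphs -/
theorem nut5 (hk : k % 2 = 1) (hk5 : 5 ≤ k) (H B C F : Finset (ZMod k)) (hH : ∀ t ∈ H, -t ∈ H)
    (hF : ∀ t ∈ F, -t ∈ F) (H0 : 0 ∉ H) (F0 : 0 ∉ F) (F1 : 1 ∉ F) (C0 : 0 ∉ C)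
    (B1 : 1 ∉ B) (B2 : -1 ∉ B) (B3 : 2 ∉ B)
    (z : ℕ) (h1 : H.card + B.card + C.card = z) (h2 : 2 * C.card + F.card = z)
    (h3 : H.card ≠ B.card + 1) (h4 : z + 1 ≠ 3 * C.card) :
    (mk5 (n01 hk5) H B C F hH hF H0 F0 F1 C0 B1 B2 B3).gr.IsRegularOfDegree (5 + 2 * z) ∧
    IsNut (mk5 (n01 hk5) H B C F hH hF H0 F0 F1 C0 B1 B2 B3).gr := by
  have hne := one_ne (k := k) (by omega)
  have hcB : (B.image (fun t => -t)).card = B.card :=
    Finset.card_image_of_injective _ neg_injective
  have hcC : (C.image (fun t => -t)).card = C.card :=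
    Finset.card_image_of_injective _ neg_injective
  have c1 : ({-1, 1, 2} : Finset (ZMod k)).card = 3 := by
    rw [Finset.card_eq_sum_ones, sum_t1 hk5]; rfl
  have c2 : ({1, -1, -2} : Finset (ZMod k)).card = 3 := by
    rw [Finset.card_eq_sum_ones, sum_t2 hk5]; rfl
  have c3 : ({1, -1} : Finset (ZMod k)).card = 2 := Finset.card_pair hne
  constructor
  · apply degree_eq
    intro a
    fin_cases a <;>
      simp [mk5, Fin.sum_univ_three, hcB, hcC, c1, c2, c3] <;> omega
  · apply nut_gen _ ![1, 1, -2]
    · intro a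
      fin_cases a <;> simp
    · intro a
      fin_cases a <;>
        simp [mk5, Fin.sum_univ_three, c1, c2, c3] <;> norm_num
    · intro r hr hs
      refine kernel5 hk r ?_ ?_ ?_ hs
      · intro i
        have := hr 0 i
        simp [mk5, Fin.sum_univ_three, sum_t1 hk5] at this
        rw [sub_eq_add_neg i 1]
        linear_combination this
      · intro i
        have := hr 1 i
        simp [mk5, Fin.sum_univ_three, sum_t2 hk5] at this
        rw [sub_eq_add_neg i 1, sub_eq_add_neg i 2]
        linear_combination this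
      · intro i
        have := hr 2 i
        simp [mk5, Fin.sum_univ_three, Finset.sum_pair hne] at this
        rw [sub_eq_add_neg i 1]
        linear_combination this
    · intro U hU h0
      have u0 := hU 0
      have u1 := hU 1
      simp [mk5, Fin.sum_univ_three, c1, c2] at u0 u1
      rw [h0] at u0 u1
      constructor <;> omega
    · intro U hU
      have g0 := hU 0
      have g1 := hU 1
      have g2 := hU 2
      simp [mk5, Fin.sum_univ_three, hcB, hcC, c1, c2, c3] at g0 g1 g2
      have hz1 : (H.card : ℤ) + B.card + C.card = z := by exact_mod_cast h1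
      have hz2 : 2 * (C.card : ℤ) + F.card = z := by exact_mod_cast h2
      have hz3 : (H.card : ℤ) - B.card - 1 ≠ 0 := by
        intro h
        apply h3
        have : (H.card : ℤ) = B.card + 1 := by linarith
        exact_mod_cast this
      have hz4 : (z : ℤ) + 1 - 3 * C.card ≠ 0 := by
        intro h
        apply h4
        have : (z : ℤ) + 1 = 3 * C.card := by linarith
        exact_mod_cast this
      have k1 : U 0 = U 1 := by
        have h5 : 2 * (((H.card : ℤ) - B.card - 1) * (U 0 - U 1)) = 0 := by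
          linear_combination g0 - g1
        have h6 : ((H.card : ℤ) - B.card - 1) * (U 0 - U 1) = 0 := by omega
        have := (mul_eq_zero.1 h6).resolve_left hz3
        linarith
      rw [← k1] at g0 g2
      have hh : (H.card : ℤ) = z - B.card - C.card := by linarith
      have hf : (F.card : ℤ) = z - 2 * C.card := by linarith
      rw [hh] at g0
      rw [hf] at g2
      have k2 : U 0 = 0 := by
        have h5 : (2 * (2 * (z : ℤ) + 5) * (z + 1 - 3 * C.card)) * U 0 = 0 := by
          linear_combination (2 * ((z : ℤ) - 2 * C.card) + 3) * g0 - (2 * (C.card : ℤ) + 1) * g2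
        rcases mul_eq_zero.1 h5 with h6 | h6
        · rcases mul_eq_zero.1 h6 with h7 | h7
          · exfalso
            have : (0 : ℤ) ≤ z := Int.natCast_nonneg z
            linarith
          · exact absurd h7 hz4
        · exact h6
      refine ⟨k2, k1 ▸ k2, ?_⟩
      rw [k2] at g0
      have h7 : (2 * (C.card : ℤ) + 1) * U 2 = 0 := by linear_combination g0
      rcases mul_eq_zero.1 h7 with h8 | h8
      · exfalso
        have : (0 : ℤ) ≤ C.card := Int.natCast_nonneg _
        linarith
      · exact h8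

end Pool.Agent.TH417.Nut
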