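import Pool.Agent.TH417.Nut.Three

set_option autoImplicit false

open Finset

namespace Pool.Agent.TH417.Nut

variable {k : ℕ} [NeZero k]

/-- the coefficients of the antisymmetric system, with one more row -/
def Data.N1 (D : Data k) : Option (Fin 3 × ZMod k) → Fin 3 × ZMod k → ℤ
  | some r, p => (if p.2 - r.2 ∈ D.P r.1 p.1 then 1 else 0) -
      (if p.2 - r.2 ∈ D.R r.1 p.1 then 1 else 0)
  | none, p => if p.1 = 0 then 1 else 0

theorem sum_N1 {A : Type} [CommRing A] (D : Data k) (a : Fin 3) (i : ZMod k)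
    (v : Fin 3 × ZMod k → A) :
    ∑ p, ((D.N1 (some (a, i)) p : ℤ) : A) * v p = ∑ b, (∑ t ∈ D.P a b, v (b, i + t) -
      ∑ t ∈ D.R a b, v (b, i + t)) := by
  rw [Fintype.sum_prod_type]
  refine Finset.sum_congr rfl fun b _ => ?_
  rw [← conv (D.P a b) i (fun j => v (b, j)),
    ← conv (D.R a b) i (fun j => v (b, j)), ← Finset.sum_sub_distrib]
  refine Finset.sum_congr rfl fun j _ => ?_
  unfold Data.N1
  simp only
  push_cast
  split_ifs <;> ring

theorem sum_N1' {A : Type} [CommRing A] (D : Data k) (v : Fin 3 × ZMod k → A) :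
    ∑ p, ((D.N1 none p : ℤ) : A) * v p = ∑ i, v (0, i) := by
  rw [Fintype.sum_prod_type, Fin.sum_univ_three]
  unfold Data.N1
  simp

theorem H1_of_int (D : Data k) (x0 : Fin 3 → ℝ) (hx0 : x0 0 ≠ 0)
    (H0 : ∀ a, ∑ b, (((D.P a b).card : ℝ) - (D.R a b).card) * x0 b = 0)
    (h : ∀ v : Fin 3 → ZMod k → ℤ,
      (∀ a i, ∑ b, (∑ t ∈ D.P a b, v b (i + t) - ∑ t ∈ D.R a b, v b (i + t)) = 0) →
        ∑ i, v 0 i = 0 → ∀ a i, (2 : ℤ) ∣ v a i)
    (d : Fin 3 → ZMod k → ℝ)
    (hd : ∀ a i, ∑ b, (∑ t ∈ D.P a b, d b (i + t) - ∑ t ∈ D.R a b, d b (i + t)) = 0) :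
    ∃ c : ℝ, ∀ a i, d a i = c * x0 a := by
  have hk : (k : ℝ) ≠ 0 := Nat.cast_ne_zero.2 (NeZero.ne k)
  set c : ℝ := (∑ i, d 0 i) / (k * x0 0) with hc
  have h1 := real_zero (R := Option (Fin 3 × ZMod k)) (J := Fin 3 × ZMod k) D.N1 (by
    intro v hv x
    refine h (fun a i => v (a, i)) (fun a i => ?_) ?_ x.1 x.2
    · have := hv (some (a, i))
      rw [← this]
      have h3 := sum_N1 D a i v
      simp only [Int.cast_id] at h3
      rw [h3]
    · have := hv none
      rw [← this]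
      have h3 := sum_N1' D v
      simp only [Int.cast_id] at h3
      rw [h3]) (fun p => d p.1 p.2 - c * x0 p.1) (by
    rintro (_ | ⟨a, i⟩)
    · rw [sum_N1' D (fun p => d p.1 p.2 - c * x0 p.1)]
      simp only [Finset.sum_sub_distrib, Finset.sum_const, Finset.card_univ, ZMod.card,
        nsmul_eq_mul]
      rw [hc]
      field_simp
      ring
    · rw [sum_N1 D a i (fun p => d p.1 p.2 - c * x0 p.1)]
      simp only [Finset.sum_sub_distrib, Finset.sum_const, nsmul_eq_mul]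
      have e1 := hd a i
      have e2 := H0 a
      simp only [Finset.sum_sub_distrib, sub_mul] at e1 e2
      have e3 : ∀ b, ((D.P a b).card : ℝ) * (c * x0 b) = c * ((D.P a b).card * x0 b) := by
        intro b; ring
      have e4 : ∀ b, ((D.R a b).card : ℝ) * (c * x0 b) = c * ((D.R a b).card * x0 b) := by
        intro b; ring
      simp only [e3, e4, ← Finset.mul_sum]
      linear_combination e1 - c * e2)
  refine ⟨c, fun a i => ?_⟩
  have := h1 (a, i)
  simp only at this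
  linarith

/-- cell sums, antisymmetric system -/
theorem cell' {A : Type} [CommRing A] (D : Data k) (v : Fin 3 → ZMod k → A)
    (hv : ∀ a i, ∑ b, (∑ t ∈ D.P a b, v b (i + t) - ∑ t ∈ D.R a b, v b (i + t)) = 0)
    (a : Fin 3) :
    ∑ b, (((D.P a b).card : A) - (D.R a b).card) * ∑ i, v b i = 0 := by
  have h : ∑ i, ∑ b, (∑ t ∈ D.P a b, v b (i + t) - ∑ t ∈ D.R a b, v b (i + t)) = 0 :=
    Finset.sum_eq_zero fun i _ => hv a i
  have hS : ∀ (S : Finset (ZMod k)) (f : ZMod k → A), ∑ i, ∑ t ∈ S, f (i + t) =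
      (S.card : A) * ∑ i, f i := by
    intro S f
    rw [Finset.sum_comm]
    have : ∀ t ∈ S, ∑ i, f (i + t) = ∑ i, f i := fun t _ =>
      Fintype.sum_equiv (Equiv.addRight t) _ _ (fun i => rfl)
    rw [Finset.sum_congr rfl this, Finset.sum_const, nsmul_eq_mul]
  rw [Finset.sum_comm] at h
  rw [← h]
  refine Finset.sum_congr rfl fun b _ => ?_
  rw [Finset.sum_sub_distrib, hS, hS]
  ring

theorem mod2' (D : Data k) (v : Fin 3 → ZMod k → ℤ)
    (hv : ∀ a i, ∑ b, (∑ t ∈ D.P a b, v b (i + t) - ∑ t ∈ D.R a b, v b (i + t)) = 0)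
    (a : Fin 3) (i : ZMod k) :
    ∑ b, (∑ t ∈ D.P a b, ((v b (i + t) : ℤ) : ZMod 2) +
      ∑ t ∈ D.R a b, ((v b (i + t) : ℤ) : ZMod 2)) = 0 := by
  have h := congrArg (Int.cast : ℤ → ZMod 2) (hv a i)
  push_cast at h
  rw [← h]
  refine Finset.sum_congr rfl fun b _ => ?_
  have h2 : ∀ x : ZMod 2, -x = x := by decide
  rw [sub_eq_add_neg, h2]

/-- The general criterion: the system modulo 2 has only the zero solution among the functions with
zero cell sums, and the two quotient systems are as they should be. -/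
theorem nut_gen (D : Data k) (x0 : Fin 3 → ℝ) (hx0 : ∀ a, x0 a ≠ 0)
    (H0 : ∀ a, ∑ b, (((D.P a b).card : ℝ) - (D.R a b).card) * x0 b = 0)
    (K2 : ∀ r : Fin 3 → ZMod k → ZMod 2,
      (∀ a i, ∑ b, (∑ t ∈ D.P a b, r b (i + t) + ∑ t ∈ D.R a b, r b (i + t)) = 0) →
        (∀ a, ∑ i, r a i = 0) → ∀ a i, r a i = 0)
    (Q1 : ∀ U : Fin 3 → ℤ, (∀ a, ∑ b, (((D.P a b).card : ℤ) - (D.R a b).card) * U b = 0) →
      U 0 = 0 → U 1 = 0 ∧ U 2 = 0)
    (Q2 : ∀ U : Fin 3 → ℤ,
      (∀ a, ∑ b, (2 * ((D.q a b).card : ℤ) + (D.P a b).card + (D.R a b).card) * U b = 0) →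
      U 0 = 0 ∧ U 1 = 0 ∧ U 2 = 0) : IsNut D.gr := by
  have hfin : ∀ v : Fin 3 → ZMod k → ℤ,
      (∀ a i, ∑ b, (∑ t ∈ D.P a b, ((v b (i + t) : ℤ) : ZMod 2) +
        ∑ t ∈ D.R a b, ((v b (i + t) : ℤ) : ZMod 2)) = 0) →
      (∑ i, v 0 i = 0) → (∑ i, v 1 i = 0) → (∑ i, v 2 i = 0) → ∀ a i, (2 : ℤ) ∣ v a i := by
    intro v h1 s0 s1 s2 a i
    refine (ZMod.intCast_zmod_eq_zero_iff_dvd (v a i) 2).1
      (K2 (fun a i => ((v a i : ℤ) : ZMod 2)) h1 ?_ a i)
    intro a
    have : ∑ i, v a i = 0 := by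
      fin_cases a
      · exact s0
      · exact s1
      · exact s2
    have h3 := congrArg (Int.cast : ℤ → ZMod 2) this
    simpa using h3
  apply nut_of D x0 hx0 H0
  · intro d hd
    refine H1_of_int D x0 (hx0 0) H0 ?_ d hd
    intro v hv h0
    have h1 := Q1 (fun a => ∑ i, v a i) (cell' D v hv) h0
    exact hfin v (mod2' D v hv) h0 h1.1 h1.2
  · intro u hu
    refine H2_of_int _ ?_ u hu
    intro v hv
    have h1 := Q2 (fun a => ∑ i, v a i) (cell D v hv)
    exact hfin v (mod2 D v hv) h1.1 h1.2.1 h1.2.2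

theorem shift_sum (f : ZMod k → ZMod 2) (t : ZMod k) : ∑ i, f (i + t) = ∑ i, f i :=
  Fintype.sum_equiv (Equiv.addRight t) _ _ (fun i => rfl)

theorem const_zero (hk : k % 2 = 1) (f : ZMod k → ZMod 2) (hs : ∑ i, f i = 0)
    (h : ∀ i, f i = f 0) : ∀ i, f i = 0 := by
  have h00 : f 0 = 0 := by
    rw [Finset.sum_congr rfl fun i _ => h i, Finset.sum_const,
      Finset.card_univ, ZMod.card, nsmul_eq_mul, odd_cast hk] at hs
    simpa using hs
  exact fun i => (h i).trans h00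

/-- the operator `f ↦ f (i+1) + f (i-1)` is injective on functions with sum zero -/
theorem T_inj (hk : k % 2 = 1) (f : ZMod k → ZMod 2) (hs : ∑ i, f i = 0)
    (h : ∀ i, f (i + 1) + f (i - 1) = 0) : ∀ i, f i = 0 := by
  refine const_zero hk f hs (step_two hk f ?_)
  intro i
  have a1 := h (i + 1)
  have b1 : i + 1 + 1 = i + 2 := by ring
  have b2 : i + 1 - 1 = i := by ring
  rw [b1, b2] at a1
  have c4 := add_self_two (f i)
  linear_combination a1 - c4

theorem four_inj (hk : k % 2 = 1) (f : ZMod k → ZMod 2) (hs : ∑ i, f i = 0)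
    (h : ∀ i, f (i + 4) = f i) : ∀ i, f i = 0 := by
  refine const_zero hk f hs ?_
  have h1 := step_two hk (fun i => f (2 * i)) (by
    intro i
    have : 2 * (i + 2) = 2 * i + 4 := by ring
    simp only [this]
    exact h _)
  intro i
  have h3 : (2 : ZMod k) * (((k + 1) / 2 : ℕ) : ZMod k) = 1 := by
    have h4 : 2 * ((k + 1) / 2) = k + 1 := by omega
    have h5 := congrArg (fun n : ℕ => (n : ZMod k)) h4
    simpa using h5
  have h2 := h1 ((((k + 1) / 2 : ℕ) : ZMod k) * i)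
  have h5 : 2 * ((((k + 1) / 2 : ℕ) : ZMod k) * i) = i := by
    rw [← mul_assoc, h3, one_mul]
  simp only [mul_zero] at h2
  rwa [h5] at h2

end Pool.Agent.TH417.Nut
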