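import Pool.Agent.TH417.Nut.Ring

set_option autoImplicit false

open Finset

namespace Pool.Agent.TH417.Nut

/-- the functions antisymmetric under `α` -/
def W {D : Type} (α : D → D) : Submodule ℝ (D → ℝ) where
  carrier := {w | ∀ d, w (α d) = - w d}
  add_mem' := by
    intro a b ha hb d
    simp only [Set.mem_ofPred_eq] at ha hb
    simp only [Pi.add_apply, ha, hb]
    ring
  zero_mem' := by intro d; simp
  smul_mem' := by
    intro c a ha d
    simp only [Set.mem_ofPred_eq] at ha
    simp only [Pi.smul_apply, smul_eq_mul, ha]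
    ring

theorem card_le_W {D : Type} [Fintype D] (α : D → D) (hα : ∀ d, α (α d) = d)
    (hα' : ∀ d, α d ≠ d) : Fintype.card D ≤ 2 * Module.finrank ℝ (W α) := by
  classical
  let f := Fintype.equivFin D
  let s : D → ℝ := fun d => if f d < f (α d) then 1 else -1
  have hs : ∀ d, s (α d) = - s d := by
    intro d
    have h1 : f d ≠ f (α d) := fun h => hα' d (f.injective h).symm
    simp only [s, hα]
    rcases lt_or_gt_of_ne h1 with h2 | h2
    · rw [if_pos h2, if_neg (not_lt.2 h2.le)]
    · rw [if_neg (not_lt.2 h2.le), if_pos h2]; ring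
  have hs0 : ∀ d, s d ≠ 0 := by
    intro d
    simp only [s]
    split_ifs <;> norm_num
  let Φ : (D → ℝ) →ₗ[ℝ] (W α) × (W α) :=
    { toFun := fun g => (⟨fun d => s d * (g d + g (α d)), by
          intro d
          simp only [hs, hα]
          ring⟩, ⟨fun d => g d - g (α d), by
          intro d
          simp only [hα]
          ring⟩)
      map_add' := by
        intro g h
        ext d
        · simp; ring
        · simp; ring
      map_smul' := by
        intro c g
        ext d
        · simp; ring
        · simp; ring }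
  have hinj : Function.Injective Φ := by
    rw [injective_iff_map_eq_zero]
    intro g hg
    funext d
    have h1 : s d * (g d + g (α d)) = 0 := by
      have := congrArg (fun x => (x.1 : D → ℝ) d) hg
      simpa [Φ] using this
    have h2 : g d - g (α d) = 0 := by
      have := congrArg (fun x => (x.2 : D → ℝ) d) hg
      simpa [Φ] using this
    have h3 := (mul_eq_zero.1 h1).resolve_left (hs0 d)
    simp only [Pi.zero_apply]
    linarith
  have := LinearMap.finrank_le_finrank_of_injective hinj
  rw [Module.finrank_prod, Module.finrank_fintype_fun_eq_card] at this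
  omega

theorem exists_eps {D : Type} [Fintype D] [Nonempty D] (α β : D → D) (hα : ∀ d, α (α d) = d)
    (hα' : ∀ d, α d ≠ d) (hβ : ∀ d, β (β d) = d) (hβ' : ∀ d, β d ≠ d) :
    ∃ ε : D → ℝ, ε ≠ 0 ∧ (∀ d, ε (α d) = - ε d) ∧ ∀ d, ε (β d) = - ε d := by
  have h1 := card_le_W α hα hα'
  have h2 := card_le_W β hβ hβ'
  have h3 := Submodule.finrank_sup_add_finrank_inf_eq (W α) (W β)
  have hsum : ∀ (γ : D → D), (∀ d, γ (γ d) = d) → ∀ w ∈ W γ, ∑ d, w d = 0 := by
    intro γ hγ w hw
    have e : ∑ d, w (γ d) = ∑ d, w d :=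
      Fintype.sum_equiv (Function.Involutive.toPerm γ hγ) _ _ (fun d => rfl)
    have e2 : ∑ d, w (γ d) = - ∑ d, w d := by
      rw [← Finset.sum_neg_distrib]
      exact Finset.sum_congr rfl fun d _ => hw d
    linarith
  let σ : (D → ℝ) →ₗ[ℝ] ℝ :=
    { toFun := fun w => ∑ d, w d
      map_add' := by intro a b; simp [Finset.sum_add_distrib]
      map_smul' := by intro c a; simp [Finset.mul_sum] }
  have h4 : W α ⊔ W β ≤ LinearMap.ker σ := by
    refine sup_le ?_ ?_
    · intro w hw; exact hsum α hα w hw
    · intro w hw; exact hsum β hβ w hw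
  have h5 : W α ⊔ W β < ⊤ := by
    refine lt_of_le_of_lt h4 (lt_top_iff_ne_top.2 ?_)
    intro h6
    have h7 : (fun _ => (1 : ℝ)) ∈ LinearMap.ker σ := by rw [h6]; trivial
    have h8 : ∑ _d : D, (1 : ℝ) = 0 := h7
    simp at h8
  have h6 := Submodule.finrank_lt h5.ne
  rw [Module.finrank_fintype_fun_eq_card] at h6
  have h7 : 0 < Module.finrank ℝ (W α ⊓ W β : Submodule ℝ (D → ℝ)) := by omega
  have h8 : (W α ⊓ W β) ≠ ⊥ := by
    intro h9
    rw [h9, finrank_bot] at h7
    exact lt_irrefl _ h7
  obtain ⟨w, hw, hw0⟩ := Submodule.exists_mem_ne_zero_of_ne_bot h8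
  exact ⟨w, hw0, hw.1, hw.2⟩

/-- The combinatorial core: no function spans the kernel for a 2-regular complement. -/
theorem core {V : Type} [Fintype V] (a b : V → V)
    (hab : ∀ v, a v ≠ b v) (ha : ∀ v, a v ≠ v) (hb : ∀ v, b v ≠ v)
    (ra : ∀ v, a (a v) = v ∨ b (a v) = v) (rb : ∀ v, a (b v) = v ∨ b (b v) = v)
    (x : V → ℝ) (hx : ∀ v, x v ≠ 0) (hk : ∀ v, x v + x (a v) + x (b v) = 0) [Nonempty V]
    (h1 : ∀ y : V → ℝ, (∀ v, y v + y (a v) + y (b v) = 0) → ∃ l : ℝ, ∀ v, y v = l * x v) :
    False := by
  classical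
  let t : V × Bool → V := fun d => if d.2 then a d.1 else b d.1
  let rev : V × Bool → V × Bool := fun d => (t d, decide (a (t d) = d.1))
  have ht : ∀ d, t (rev d) = d.1 := by
    rintro ⟨v, s⟩
    simp only [rev, t]
    cases s
    · simp only [Bool.false_eq_true, if_false]
      by_cases h : a (b v) = v
      · simp [h]
      · simp [h, (rb v).resolve_left h]
    · simp only [if_true]
      by_cases h : a (a v) = v
      · simp [h]
      · simp [h, (ra v).resolve_left h]
  have hrev : ∀ d, rev (rev d) = d := by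
    intro d
    have h2 := ht d
    have e : rev (rev d) = (t (rev d), decide (a (t (rev d)) = (rev d).1)) := rfl
    rw [e, h2]
    obtain ⟨v, s⟩ := d
    cases s
    · simp [rev, t, hab v]
    · simp [rev, t]
  have hrev' : ∀ d, rev d ≠ d := by
    rintro ⟨v, s⟩ h
    have h2 := congrArg Prod.fst h
    cases s
    · simp only [rev, t, Bool.false_eq_true, if_false] at h2
      exact hb v h2
    · simp only [rev, t, if_true] at h2
      exact ha v h2
  obtain ⟨ε, hε0, hε1, hε2⟩ := exists_eps rev (fun d => (d.1, !d.2)) hrev hrev'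
    (by rintro ⟨v, s⟩; simp) (by rintro ⟨v, s⟩ h; simp at h)
  let y : V → ℝ := fun v => ε (v, true) * (x (a v) - x (b v))
  have hy : ∀ d : V × Bool, y d.1 = ε d * (x (t d) - x (t (d.1, !d.2))) := by
    rintro ⟨v, s⟩
    cases s
    · have := hε2 (v, true)
      simp only [Bool.not_true] at this
      simp only [y, t, this, Bool.not_false, if_true, Bool.false_eq_true, if_false]
      ring
    · simp [y, t]
  have hkd : ∀ d : V × Bool, x d.1 + x (t d) + x (t (d.1, !d.2)) = 0 := by
    rintro ⟨v, s⟩
    have := hk v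
    cases s
    · simp only [t, Bool.not_false, if_true, Bool.false_eq_true, if_false]; linarith
    · simp only [t, Bool.not_true, if_true, Bool.false_eq_true, if_false]; linarith
  have hyt : ∀ d : V × Bool, y (t d) = ε d * (x (t (d.1, !d.2)) - x d.1) := by
    intro d
    have e1 := hy (rev d)
    rw [hε1, ht] at e1
    have e2 := hkd (rev d)
    rw [ht] at e2
    have e3 := hkd d
    have e4 : (rev d).1 = t d := rfl
    rw [e4] at e1 e2
    rw [e1]
    have e5 : x (t (t d, !(rev d).2)) = x (t (d.1, !d.2)) := by linarith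
    rw [e5]
    ring
  have key : ∀ v, y v + y (a v) + y (b v) = 0 := by
    intro v
    have e1 := hy (v, true)
    have e2 := hyt (v, true)
    have e3 := hyt (v, false)
    have e4 := hε2 (v, true)
    simp only [t, Bool.not_true, Bool.not_false, if_true, Bool.false_eq_true, if_false] at e1 e2 e3 e4
    rw [e1, e2, e3, e4]
    ring
  obtain ⟨l, hl⟩ := h1 y key
  have hne : ∃ v, ε (v, true) ≠ 0 := by
    by_contra hcon
    push Not at hcon
    apply hε0
    funext ⟨v, s⟩
    cases s
    · have := hε2 (v, true)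
      simp only [Bool.not_true] at this
      rw [this, hcon v]; simp
    · exact hcon v
  obtain ⟨v, hv⟩ := hne
  have e1 := hy (v, true)
  have e2 := hyt (v, true)
  have e3 := hyt (v, false)
  have e4 := hε2 (v, true)
  simp only [t, Bool.not_true, Bool.not_false, if_true, Bool.false_eq_true, if_false] at e1 e2 e3 e4
  rw [e4] at e3
  have l1 := hl v
  have l2 := hl (a v)
  have l3 := hl (b v)
  have hl0 : l = 0 := by
    have h5 : l * (x v ^ 2 + x (a v) ^ 2 + x (b v) ^ 2) = 0 := by
      have f1 : l * x v = ε (v, true) * (x (a v) - x (b v)) := by rw [← l1, e1]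
      have f2 : l * x (a v) = ε (v, true) * (x (b v) - x v) := by rw [← l2, e2]
      have f3 : l * x (b v) = - ε (v, true) * (x (a v) - x v) := by rw [← l3, e3]
      linear_combination x v * f1 + x (a v) * f2 + x (b v) * f3
    have h6 : x v ^ 2 + x (a v) ^ 2 + x (b v) ^ 2 ≠ 0 := by
      have := sq_pos_of_ne_zero (hx v)
      positivity
    exact (mul_eq_zero.1 h5).resolve_right h6
  rw [hl0, zero_mul] at l1 l2
  rw [l1] at e1
  rw [l2] at e2
  have g1 := (mul_eq_zero.1 e1.symm).resolve_left hv
  have g2 := (mul_eq_zero.1 e2.symm).resolve_left hv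
  have := hk v
  apply hx v
  linarith

end Pool.Agent.TH417.Nut
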