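import Mathlib

set_option autoImplicit false

open Finset

namespace Pool.Agent.TH417.Nut

/-- `G` is a nut graph: at least two vertices, and the kernel of the real adjacency matrix is
spanned by one vector without zero entries. -/
def IsNut {V : Type} [Fintype V] [DecidableEq V] (G : SimpleGraph V) [DecidableRel G.Adj] : Prop :=
  2 ≤ Fintype.card V ∧ ∃ x : V → ℝ, (∀ v, x v ≠ 0) ∧
    LinearMap.ker (G.adjMatrix ℝ).mulVecLin = Submodule.span ℝ {x}

/-- there is a `ρ`-regular nut graph of order `n` -/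
def HasNut (ρ n : ℕ) : Prop :=
  ∃ (V : Type) (_ : Fintype V) (_ : DecidableEq V) (G : SimpleGraph V) (_ : DecidableRel G.Adj),
    Fintype.card V = n ∧ G.IsRegularOfDegree ρ ∧ IsNut G

/-! ### lifting from integers to reals -/

theorem int_zero {R J : Type} [Fintype J] (N : R → J → ℤ)
    (h : ∀ v : J → ℤ, (∀ r, ∑ j, N r j * v j = 0) → ∀ x, (2 : ℤ) ∣ v x)
    (v : J → ℤ) (hv : ∀ r, ∑ j, N r j * v j = 0) : ∀ x, v x = 0 := by
  have h1 : ∀ (n : ℕ) (v : J → ℤ), (∀ r, ∑ j, N r j * v j = 0) → ∀ x, (2 : ℤ) ^ n ∣ v x := by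
    intro n
    induction n with
    | zero => intro v _ x; simp
    | succ n ih =>
      intro v hv x
      choose w hw using h v hv
      have h2 : ∀ r, ∑ j, N r j * w j = 0 := by
        intro r
        have h3 := hv r
        have h4 : ∑ j, N r j * v j = 2 * ∑ j, N r j * w j := by
          rw [Finset.mul_sum]
          refine Finset.sum_congr rfl fun j _ => ?_
          rw [hw j]; ring
        rw [h4] at h3
        omega
      obtain ⟨c, hc⟩ := ih w h2 x
      exact ⟨c, by rw [hw x, hc]; ring⟩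
  intro x
  by_contra hx
  have h2 := h1 (v x).natAbs v hv x
  have h3 : (2 : ℤ) ^ (v x).natAbs ≤ |v x| := by
    apply Int.le_of_dvd (abs_pos.2 hx)
    exact (dvd_abs _ _).2 h2
  have h4 : (v x).natAbs < 2 ^ (v x).natAbs := Nat.lt_two_pow_self
  have h5 : ((v x).natAbs : ℤ) < 2 ^ (v x).natAbs := by exact_mod_cast h4
  rw [Int.abs_eq_natAbs] at h3
  omega

theorem real_zero {R J : Type} [Fintype J] (N : R → J → ℤ)
    (h : ∀ v : J → ℤ, (∀ r, ∑ j, N r j * v j = 0) → ∀ x, (2 : ℤ) ∣ v x)
    (y : J → ℝ) (hy : ∀ r, ∑ j, (N r j : ℝ) * y j = 0) : ∀ x, y x = 0 := by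
  classical
  let M : Submodule ℤ ℝ := Submodule.span ℤ (Set.range y)
  have : Module.Finite ℤ M := by
    apply Module.Finite.span_of_finite
    exact Set.finite_range y
  have hmem : ∀ j, y j ∈ M := fun j => Submodule.subset_span ⟨j, rfl⟩
  have : Module.Free ℤ M := inferInstance
  let b := Module.Free.chooseBasis ℤ M
  intro x
  have h1 : (⟨y x, hmem x⟩ : M) = 0 := by
    apply b.ext_elem
    intro i
    have h2 := int_zero N h (fun j => b.repr ⟨y j, hmem j⟩ i) (by
      intro r
      have h3 : ∑ j, N r j • (⟨y j, hmem j⟩ : M) = 0 := by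
        apply Subtype.ext
        rw [AddSubmonoidClass.coe_finsetSum]
        have := hy r
        simpa [zsmul_eq_mul] using this
      have h4 : b.repr (∑ j, N r j • (⟨y j, hmem j⟩ : M)) i = 0 := by rw [h3]; simp
      rw [map_sum, Finsupp.finsetSum_apply] at h4
      simpa only [map_smul, Finsupp.smul_apply, smul_eq_mul] using h4)
    simpa using h2 x
  exact congrArg Subtype.val h1

/-! ### the graphs -/

variable {k : ℕ} [NeZero k]

/-- connection sets: `q` (both signs), `P` (equal signs), `R` (different signs) -/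
structure Data (k : ℕ) [NeZero k] where
  q : Fin 3 → Fin 3 → Finset (ZMod k)
  P : Fin 3 → Fin 3 → Finset (ZMod k)
  R : Fin 3 → Fin 3 → Finset (ZMod k)
  hq : ∀ a b t, t ∈ q a b → -t ∈ q b a
  hP : ∀ a b t, t ∈ P a b → -t ∈ P b a
  hR : ∀ a b t, t ∈ R a b → -t ∈ R b a
  dP : ∀ a b, Disjoint (q a b) (P a b)
  dR : ∀ a b, Disjoint (q a b) (R a b)
  q0 : ∀ a, 0 ∉ q a a
  P0 : ∀ a, 0 ∉ P a a

/-- the connection set for equal (`true`) or different (`false`) signs -/
def Data.C (D : Data k) (a b : Fin 3) (e : Bool) : Finset (ZMod k) :=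
  D.q a b ∪ (if e then D.P a b else D.R a b)

theorem Data.C_neg (D : Data k) (a b : Fin 3) (e : Bool) (t : ZMod k) (h : t ∈ D.C a b e) :
    -t ∈ D.C b a e := by
  unfold Data.C at *
  rw [Finset.mem_union] at *
  rcases h with h | h
  · exact Or.inl (D.hq _ _ _ h)
  · right
    cases e
    · exact D.hR _ _ _ h
    · exact D.hP _ _ _ h

/-- the graph -/
def Data.gr (D : Data k) : SimpleGraph (Fin 3 × ZMod k × Bool) where
  Adj x y := y.2.1 - x.2.1 ∈ D.C x.1 y.1 (x.2.2 == y.2.2)
  symm := ⟨by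
    intro x y h
    have := D.C_neg _ _ _ _ h
    rw [neg_sub] at this
    rwa [Bool.beq_comm] at this⟩
  loopless := ⟨by
    intro x h
    simp only [sub_self, beq_self_eq_true, Data.C, if_true, Finset.mem_union] at h
    rcases h with h | h
    · exact D.q0 _ h
    · exact D.P0 _ h⟩

instance (D : Data k) : DecidableRel D.gr.Adj := fun x y =>
  inferInstanceAs (Decidable (y.2.1 - x.2.1 ∈ D.C x.1 y.1 (x.2.2 == y.2.2)))

theorem conv {A : Type} [AddCommMonoid A] (S : Finset (ZMod k)) (i : ZMod k) (f : ZMod k → A) :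
    ∑ j, (if j - i ∈ S then f j else 0) = ∑ t ∈ S, f (i + t) := by
  rw [← Finset.sum_filter]
  refine Finset.sum_nbij' (fun j => j - i) (fun t => i + t) ?_ ?_ ?_ ?_ ?_
  · intro j hj; simpa using hj
  · intro t ht; simpa using ht
  · intro j _; ring
  · intro t _; ring
  · intro j _
    congr 1
    ring

theorem sum_C {A : Type} [AddCommMonoid A] (D : Data k) (a b : Fin 3) (f : ZMod k → A) :
    ∑ t ∈ D.C a b true, f t = ∑ t ∈ D.q a b, f t + ∑ t ∈ D.P a b, f t := by
  unfold Data.C
  rw [if_pos rfl, Finset.sum_union (D.dP a b)]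

theorem sum_C' {A : Type} [AddCommMonoid A] (D : Data k) (a b : Fin 3) (f : ZMod k → A) :
    ∑ t ∈ D.C a b false, f t = ∑ t ∈ D.q a b, f t + ∑ t ∈ D.R a b, f t := by
  unfold Data.C
  rw [if_neg (by simp), Finset.sum_union (D.dR a b)]

/-- sums over neighbours -/
theorem nbr {A : Type} [AddCommMonoid A] (D : Data k) (a : Fin 3) (i : ZMod k) (s : Bool)
    (y : Fin 3 × ZMod k × Bool → A) :
    ∑ w, (if D.gr.Adj (a, i, s) w then y w else 0) =
      ∑ b, (∑ t ∈ D.C a b true, y (b, i + t, s) + ∑ t ∈ D.C a b false, y (b, i + t, !s)) := by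
  rw [Fintype.sum_prod_type]
  refine Finset.sum_congr rfl fun b _ => ?_
  rw [Fintype.sum_prod_type]
  have h : ∀ j : ZMod k, ∑ s' : Bool, (if D.gr.Adj (a, i, s) (b, j, s') then y (b, j, s') else 0) =
      (if j - i ∈ D.C a b true then y (b, j, s) else 0) +
        (if j - i ∈ D.C a b false then y (b, j, !s) else 0) := by
    intro j
    rw [Fintype.sum_bool]
    have e1 : D.gr.Adj (a, i, s) (b, j, true) = (j - i ∈ D.C a b (s == true)) := rfl
    have e2 : D.gr.Adj (a, i, s) (b, j, false) = (j - i ∈ D.C a b (s == false)) := rfl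
    cases s
    · simp only [e1, e2, Bool.not_false]
      rw [add_comm]
      rfl
    · simp only [e1, e2, Bool.not_true]
      rfl
  rw [Finset.sum_congr rfl fun j _ => h j, Finset.sum_add_distrib]
  rw [conv (D.C a b true) i (fun j => y (b, j, s)), conv (D.C a b false) i (fun j => y (b, j, !s))]

theorem mulVec_eq (D : Data k) (a : Fin 3) (i : ZMod k) (s : Bool)
    (y : Fin 3 × ZMod k × Bool → ℝ) :
    (D.gr.adjMatrix ℝ).mulVec y (a, i, s) =
      ∑ b, (∑ t ∈ D.C a b true, y (b, i + t, s) + ∑ t ∈ D.C a b false, y (b, i + t, !s)) := by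
  rw [← nbr]
  simp only [Matrix.mulVec, dotProduct]
  refine Finset.sum_congr rfl fun w _ => ?_
  simp only [SimpleGraph.adjMatrix_apply]
  split_ifs <;> simp

theorem degree_eq (D : Data k) (r : ℕ)
    (hr : ∀ a, ∑ b, (2 * (D.q a b).card + (D.P a b).card + (D.R a b).card) = r) :
    D.gr.IsRegularOfDegree r := by
  rintro ⟨a, i, s⟩
  have h := nbr D a i s (fun _ => (1 : ℕ))
  rw [← hr a]
  have h2 : D.gr.degree (a, i, s) = ∑ w, (if D.gr.Adj (a, i, s) w then (1 : ℕ) else 0) := by
    rw [Finset.sum_boole, ← SimpleGraph.card_neighborFinset_eq_degree]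
    simp [SimpleGraph.neighborFinset_eq_filter]
  rw [h2, h]
  refine Finset.sum_congr rfl fun b _ => ?_
  rw [sum_C D a b (fun _ => (1 : ℕ)), sum_C' D a b (fun _ => (1 : ℕ))]
  simp only [Finset.sum_const, smul_eq_mul, mul_one]
  ring

/-- the criterion -/
theorem nut_of (D : Data k) (x0 : Fin 3 → ℝ) (hx0 : ∀ a, x0 a ≠ 0)
    (H0 : ∀ a, ∑ b, (((D.P a b).card : ℝ) - (D.R a b).card) * x0 b = 0)
    (H1 : ∀ d : Fin 3 → ZMod k → ℝ,
      (∀ a i, ∑ b, (∑ t ∈ D.P a b, d b (i + t) - ∑ t ∈ D.R a b, d b (i + t)) = 0) →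
        ∃ c : ℝ, ∀ a i, d a i = c * x0 a)
    (H2 : ∀ u : Fin 3 → ZMod k → ℝ,
      (∀ a i, ∑ b, (2 * ∑ t ∈ D.q a b, u b (i + t) + ∑ t ∈ D.P a b, u b (i + t) +
        ∑ t ∈ D.R a b, u b (i + t)) = 0) → ∀ a i, u a i = 0) :
    IsNut D.gr := by
  constructor
  · rw [Fintype.card_prod, Fintype.card_prod, Fintype.card_bool, Fintype.card_fin, ZMod.card]
    have := Nat.pos_of_ne_zero (NeZero.ne k)
    omega
  refine ⟨fun v => if v.2.2 then x0 v.1 else - x0 v.1, ?_, ?_⟩
  · intro v
    dsimp only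
    split_ifs
    · exact hx0 _
    · exact neg_ne_zero.2 (hx0 _)
  · ext y
    rw [LinearMap.mem_ker, Submodule.mem_span_singleton, Matrix.mulVecLin_apply]
    constructor
    · intro h
      have h' : ∀ a i s, ∑ b, (∑ t ∈ D.C a b true, y (b, i + t, s) +
          ∑ t ∈ D.C a b false, y (b, i + t, !s)) = 0 := by
        intro a i s
        rw [← mulVec_eq, h]; rfl
      have hu := H2 (fun b j => y (b, j, true) + y (b, j, false)) (by
        intro a i
        have e1 := h' a i true
        have e2 := h' a i false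
        have e3 := congrArg₂ (· + ·) e1 e2
        simp only [add_zero, Bool.not_true, Bool.not_false] at e3
        rw [← Finset.sum_add_distrib] at e3
        rw [← e3]
        refine Finset.sum_congr rfl fun b _ => ?_
        rw [sum_C, sum_C', sum_C, sum_C']
        simp only [Finset.sum_add_distrib]
        ring)
      obtain ⟨c, hc⟩ := H1 (fun b j => y (b, j, true) - y (b, j, false)) (by
        intro a i
        have e1 := h' a i true
        have e2 := h' a i false
        have e3 := congrArg₂ (· - ·) e1 e2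
        simp only [sub_zero, Bool.not_true, Bool.not_false] at e3
        rw [← Finset.sum_sub_distrib] at e3
        rw [← e3]
        refine Finset.sum_congr rfl fun b _ => ?_
        rw [sum_C, sum_C', sum_C, sum_C']
        simp only [Finset.sum_sub_distrib]
        ring)
      refine ⟨c / 2, ?_⟩
      funext ⟨a, i, s⟩
      have e1 := hu a i
      have e2 := hc a i
      cases s
      · simp only [Pi.smul_apply, smul_eq_mul, Bool.false_eq_true, if_false]
        linarith
      · simp only [Pi.smul_apply, smul_eq_mul, if_true]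
        linarith
    · rintro ⟨c, rfl⟩
      funext ⟨a, i, s⟩
      rw [mulVec_eq]
      have h0 := H0 a
      have key : ∀ s : Bool, ∑ b, (∑ t ∈ D.C a b true,
          (c • fun v : Fin 3 × ZMod k × Bool => if v.2.2 then x0 v.1 else - x0 v.1) (b, i + t, s) +
          ∑ t ∈ D.C a b false,
          (c • fun v : Fin 3 × ZMod k × Bool => if v.2.2 then x0 v.1 else - x0 v.1) (b, i + t, !s))
          = (if s then c else -c) * ∑ b, (((D.P a b).card : ℝ) - (D.R a b).card) * x0 b := by
        intro s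
        rw [Finset.mul_sum]
        refine Finset.sum_congr rfl fun b _ => ?_
        rw [sum_C, sum_C']
        cases s <;> simp <;> ring
      rw [key, h0, mul_zero]
      rfl

/-! ### integer systems -/

/-- the coefficients of the symmetric system -/
def Data.N (D : Data k) (r p : Fin 3 × ZMod k) : ℤ :=
  2 * (if p.2 - r.2 ∈ D.q r.1 p.1 then 1 else 0) + (if p.2 - r.2 ∈ D.P r.1 p.1 then 1 else 0) +
    (if p.2 - r.2 ∈ D.R r.1 p.1 then 1 else 0)

theorem sum_N {A : Type} [CommRing A] (D : Data k) (a : Fin 3) (i : ZMod k)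
    (v : Fin 3 × ZMod k → A) :
    ∑ p, ((D.N (a, i) p : ℤ) : A) * v p = ∑ b, (2 * ∑ t ∈ D.q a b, v (b, i + t) +
      ∑ t ∈ D.P a b, v (b, i + t) + ∑ t ∈ D.R a b, v (b, i + t)) := by
  rw [Fintype.sum_prod_type]
  refine Finset.sum_congr rfl fun b _ => ?_
  rw [← conv (D.q a b) i (fun j => v (b, j)), ← conv (D.P a b) i (fun j => v (b, j)),
    ← conv (D.R a b) i (fun j => v (b, j)), Finset.mul_sum, ← Finset.sum_add_distrib,
    ← Finset.sum_add_distrib]
  refine Finset.sum_congr rfl fun j _ => ?_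
  unfold Data.N
  simp only
  push_cast
  split_ifs <;> ring

theorem H2_of_int (D : Data k)
    (h : ∀ v : Fin 3 → ZMod k → ℤ,
      (∀ a i, ∑ b, (2 * ∑ t ∈ D.q a b, v b (i + t) + ∑ t ∈ D.P a b, v b (i + t) +
        ∑ t ∈ D.R a b, v b (i + t)) = 0) → ∀ a i, (2 : ℤ) ∣ v a i)
    (u : Fin 3 → ZMod k → ℝ)
    (hu : ∀ a i, ∑ b, (2 * ∑ t ∈ D.q a b, u b (i + t) + ∑ t ∈ D.P a b, u b (i + t) +
        ∑ t ∈ D.R a b, u b (i + t)) = 0) : ∀ a i, u a i = 0 := by
  have h1 := real_zero (R := Fin 3 × ZMod k) (J := Fin 3 × ZMod k) D.N (by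
    intro v hv x
    refine h (fun a i => v (a, i)) (fun a i => ?_) x.1 x.2
    have := hv (a, i)
    rw [← this]
    have h3 := sum_N D a i v
    simp only [Int.cast_id] at h3
    rw [h3]) (fun p => u p.1 p.2) (by
    rintro ⟨a, i⟩
    rw [sum_N D a i (fun p => u p.1 p.2)]
    exact hu a i)
  intro a i
  exact h1 (a, i)

/-- cell sums -/
theorem cell {A : Type} [CommRing A] (D : Data k) (v : Fin 3 → ZMod k → A)
    (hv : ∀ a i, ∑ b, (2 * ∑ t ∈ D.q a b, v b (i + t) + ∑ t ∈ D.P a b, v b (i + t) +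
        ∑ t ∈ D.R a b, v b (i + t)) = 0) (a : Fin 3) :
    ∑ b, (2 * ((D.q a b).card : A) + (D.P a b).card + (D.R a b).card) * ∑ i, v b i = 0 := by
  have h : ∑ i, ∑ b, (2 * ∑ t ∈ D.q a b, v b (i + t) + ∑ t ∈ D.P a b, v b (i + t) +
        ∑ t ∈ D.R a b, v b (i + t)) = 0 := Finset.sum_eq_zero fun i _ => hv a i
  have hS : ∀ (S : Finset (ZMod k)) (f : ZMod k → A), ∑ i, ∑ t ∈ S, f (i + t) =
      (S.card : A) * ∑ i, f i := by
    intro S f
    rw [Finset.sum_comm]
    have : ∀ t ∈ S, ∑ i, f (i + t) = ∑ i, f i := fun t _ =>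
      Fintype.sum_equiv (Equiv.addRight t) _ _ (fun i => rfl)
    rw [Finset.sum_congr rfl this, Finset.sum_const, nsmul_eq_mul]
  rw [Finset.sum_comm] at h
  rw [← h]
  refine Finset.sum_congr rfl fun b _ => ?_
  rw [Finset.sum_add_distrib, Finset.sum_add_distrib, ← Finset.mul_sum, hS, hS, hS]
  ring

/-! ### functions on the odd cycle -/

theorem step_one {A : Type} (f : ZMod k → A) (h : ∀ i, f (i + 1) = f i) (i : ZMod k) :
    f i = f 0 := by
  have h1 : ∀ n : ℕ, f (n : ZMod k) = f 0 := by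
    intro n
    induction n with
    | zero => simp
    | succ n ih => rw [Nat.cast_succ, h, ih]
  have h2 := h1 i.val
  rwa [ZMod.natCast_zmod_val] at h2

theorem step_two (hk : k % 2 = 1) {A : Type} (f : ZMod k → A) (h : ∀ i, f (i + 2) = f i)
    (i : ZMod k) : f i = f 0 := by
  have h1 : ∀ (n : ℕ) (j : ZMod k), f (j + 2 * (n : ZMod k)) = f j := by
    intro n
    induction n with
    | zero => intro j; simp
    | succ n ih =>
      intro j
      have : j + 2 * ((n + 1 : ℕ) : ZMod k) = (j + 2 * (n : ZMod k)) + 2 := by push_cast; ring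
      rw [this, h, ih]
  refine step_one f (fun j => ?_) i
  have h2 := h1 ((k + 1) / 2) j
  have h3 : (2 : ZMod k) * (((k + 1) / 2 : ℕ) : ZMod k) = 1 := by
    have h4 : 2 * ((k + 1) / 2) = k + 1 := by omega
    have h5 := congrArg (fun n : ℕ => (n : ZMod k)) h4
    simpa using h5
  rwa [h3] at h2

omit [NeZero k] in
theorem step_neg (hk : k % 2 = 1) (f : ZMod k → ℝ) (h : ∀ i, f (i + 2) = - f i)
    (i : ZMod k) : f i = 0 := by
  have h1 : ∀ (n : ℕ), f (i + 2 * (n : ZMod k)) = (-1) ^ n * f i := by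
    intro n
    induction n with
    | zero => simp
    | succ n ih =>
      have : i + 2 * ((n + 1 : ℕ) : ZMod k) = (i + 2 * (n : ZMod k)) + 2 := by push_cast; ring
      rw [this, h, ih]; ring
  have h2 := h1 k
  have h3 : Odd k := Nat.odd_iff.2 hk
  rw [h3.neg_one_pow] at h2
  simp only [CharP.cast_eq_zero, mul_zero, add_zero] at h2
  linarith

theorem step_harm (f : ZMod k → ℝ) (h : ∀ i, f (i + 1) + f (i - 1) = 2 * f i)
    (i : ZMod k) : f i = f 0 := by
  have h1 := step_one (fun i => f (i + 1) - f i) (by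
    intro i
    have h2 := h (i + 1)
    rw [add_sub_cancel_right] at h2
    linarith)
  set δ := f (0 + 1) - f 0 with hδ
  have h3 : ∀ n : ℕ, f (n : ZMod k) = f 0 + n * δ := by
    intro n
    induction n with
    | zero => simp
    | succ n ih =>
      have h4 := h1 (n : ZMod k)
      push_cast
      linarith
  have h5 := h3 k
  simp only [CharP.cast_eq_zero] at h5
  have hk : (k : ℝ) ≠ 0 := Nat.cast_ne_zero.2 (NeZero.ne k)
  have h6 : δ = 0 := by
    have : (k : ℝ) * δ = 0 := by linarith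
    exact (mul_eq_zero.1 this).resolve_left hk
  refine step_one f (fun j => ?_) i
  have h7 := h1 j
  rw [h6] at h7
  linarith

end Pool.Agent.TH417.Nut
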