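import Pool.Agent.TH417.Nut.Five

set_option autoImplicit false

open Finset

namespace Pool.Agent.TH417.Nut

variable {k : ℕ} [NeZero k]

omit [NeZero k] in
theorem neg_mem_aux {X : Finset (ZMod k)} {t : ZMod k} (h : t ∈ X.image (fun t => -t)) :
    -t ∈ X := by
  obtain ⟨u, hu, rfl⟩ := Finset.mem_image.1 h
  simpa using hu

/-- the data of the third design -/
def mk6 (H B C F : Finset (ZMod k)) (hH : ∀ t ∈ H, -t ∈ H)
    (hF : ∀ t ∈ F, -t ∈ F) (H0 : 0 ∉ H) (F0 : 0 ∉ F) (F1 : 1 ∉ F) (C0 : 0 ∉ C) (C1 : 1 ∉ C)
    (B0 : 0 ∉ B) (B1 : 1 ∉ B) (B2 : -1 ∉ B) : Data k where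
  q := ![![H, B, C], ![B.image (fun t => -t), H, C],
    ![C.image (fun t => -t), C.image (fun t => -t), F]]
  P := fun _ _ => ∅
  R := ![![{0}, {0, 1, -1}, {0, 1}], ![{0, 1, -1}, {0}, {0, 1}], ![{0, -1}, {0, -1}, {1, -1}]]
  hq := by
    intro a b t ht
    fin_cases a <;> fin_cases b <;> simp at ht ⊢ <;>
      first
        | exact hH _ ht
        | exact hF _ ht
        | exact ht
        | (obtain ⟨u, hu, rfl⟩ := ht; simpa using hu)
  hP := by
    intro a b t ht
    simp at ht
  hR := by
    intro a b t ht
    fin_cases a <;> fin_cases b <;> simp at ht ⊢ <;>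
      first
        | exact ht
        | (rcases ht with rfl | rfl <;> simp)
        | (rcases ht with rfl | rfl | rfl <;> simp)
  dP := by
    intro a b
    simp
  dR := by
    have F2 : -1 ∉ F := fun h => F1 (by simpa using hF _ h)
    have hB : ∀ t, t ∈ B → t = 0 ∨ t = 1 ∨ t = -1 → False := by
      rintro t ht (rfl | rfl | rfl)
      · exact B0 ht
      · exact B1 ht
      · exact B2 ht
    have hC : ∀ t, t ∈ C → t = 0 ∨ t = 1 → False := by
      rintro t ht (rfl | rfl)
      · exact C0 ht
      · exact C1 ht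
    have hFF : ∀ t, t ∈ F → t = 1 ∨ t = -1 → False := by
      rintro t ht (rfl | rfl)
      · exact F1 ht
      · exact F2 ht
    have hHH : ∀ t, t ∈ H → t = 0 → False := by
      rintro t ht rfl
      exact H0 ht
    intro a b
    rw [Finset.disjoint_left]
    intro t ht hr
    fin_cases a <;> fin_cases b
    · exact hHH t ht (by simpa using hr)
    · exact hB t ht (by simpa using hr)
    · exact hC t ht (by simpa using hr)
    · refine hB (-t) (neg_mem_aux ht) ?_
      have h : t = 0 ∨ t = 1 ∨ t = -1 := by simpa using hr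
      rcases h with rfl | rfl | rfl <;> simp
    · exact hHH t ht (by simpa using hr)
    · exact hC t ht (by simpa using hr)
    · refine hC (-t) (neg_mem_aux ht) ?_
      have h : t = 0 ∨ t = -1 := by simpa using hr
      rcases h with rfl | rfl <;> simp
    · refine hC (-t) (neg_mem_aux ht) ?_
      have h : t = 0 ∨ t = -1 := by simpa using hr
      rcases h with rfl | rfl <;> simp
    · exact hFF t ht (by simpa using hr)
  q0 := by
    intro a
    fin_cases a <;> simp [H0, F0]
  P0 := by
    intro a
    simp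

theorem kernel6 (hk : k % 2 = 1) (r : Fin 3 → ZMod k → ZMod 2)
    (e0 : ∀ i, r 0 i + (r 1 i + (r 1 (i + 1) + r 1 (i - 1))) + (r 2 i + r 2 (i + 1)) = 0)
    (e1 : ∀ i, r 1 i + (r 0 i + (r 0 (i + 1) + r 0 (i - 1))) + (r 2 i + r 2 (i + 1)) = 0)
    (e2 : ∀ i, (r 0 i + r 0 (i - 1)) + (r 1 i + r 1 (i - 1)) + (r 2 (i + 1) + r 2 (i - 1)) = 0)
    (hs : ∀ a, ∑ i, r a i = 0) : ∀ a i, r a i = 0 := by
  have g : ∀ i, r 0 i + r 1 i = 0 := by
    refine T_inj hk (fun i => r 0 i + r 1 i) ?_ ?_
    · rw [Finset.sum_add_distrib, hs, hs]; rfl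
    · intro i
      have a0 := e0 i
      have a1 := e1 i
      have c0 := add_self_two (r 0 i)
      have c1 := add_self_two (r 1 i)
      have c2 := add_self_two (r 2 i)
      have c3 := add_self_two (r 2 (i + 1))
      linear_combination a0 + a1 - c0 - c1 - c2 - c3
  have h2 : ∀ i, r 2 i = 0 := by
    refine T_inj hk _ (hs 2) ?_
    intro i
    have a := e2 i
    have b := g i
    have c := g (i - 1)
    linear_combination a - b - c
  have h0 : ∀ i, r 0 i = 0 := by
    refine T_inj hk _ (hs 0) ?_
    intro i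
    have a := e0 i
    rw [h2, h2] at a
    have b := g i
    have c := g (i + 1)
    have d := g (i - 1)
    have c1 := add_self_two (r 1 (i + 1))
    have c2 := add_self_two (r 1 (i - 1))
    linear_combination c + d - c1 - c2 + a - b
  intro a i
  fin_cases a
  · exact h0 i
  · have := g i
    rw [h0] at this
    simpa using this
  · exact h2 i

/-- the third design gives nut graphs -/
theorem nut6 (hk : k % 2 = 1) (hk5 : 5 ≤ k) (H B C F : Finset (ZMod k)) (hH : ∀ t ∈ H, -t ∈ H)
    (hF : ∀ t ∈ F, -t ∈ F) (H0 : 0 ∉ H) (F0 : 0 ∉ F) (F1 : 1 ∉ F) (C0 : 0 ∉ C) (C1 : 1 ∉ C)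
    (B0 : 0 ∉ B) (B1 : 1 ∉ B) (B2 : -1 ∉ B)
    (z : ℕ) (h1 : H.card + B.card + C.card = z) (h2 : 2 * C.card + F.card = z)
    (h3 : H.card ≠ B.card + 1) (h4 : z ≠ 3 * C.card) :
    (mk6 H B C F hH hF H0 F0 F1 C0 C1 B0 B1 B2).gr.IsRegularOfDegree (6 + 2 * z) ∧
    IsNut (mk6 H B C F hH hF H0 F0 F1 C0 C1 B0 B1 B2).gr := by
  have hne := one_ne (k := k) (by omega)
  have h01 := n01 (k := k) hk5
  have h01' : (0 : ZMod k) ≠ -1 := fun h => h01 (by rw [← neg_neg (1 : ZMod k), ← h, neg_zero])
  have hcB : (B.image (fun t => -t)).card = B.card :=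
    Finset.card_image_of_injective _ neg_injective
  have hcC : (C.image (fun t => -t)).card = C.card :=
    Finset.card_image_of_injective _ neg_injective
  have c1 : ({0, 1, -1} : Finset (ZMod k)).card = 3 := by
    rw [Finset.card_eq_sum_ones, sum_t3 hk5]; rfl
  have c2 : ({0, 1} : Finset (ZMod k)).card = 2 := Finset.card_pair h01
  have c3 : ({1, -1} : Finset (ZMod k)).card = 2 := Finset.card_pair hne
  have c4 : ({0, -1} : Finset (ZMod k)).card = 2 := Finset.card_pair h01'
  constructor
  · apply degree_eq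
    intro a
    fin_cases a <;>
      simp [mk6, Fin.sum_univ_three, hcB, hcC, c1, c2, c3, c4] <;> omega
  · apply nut_gen _ ![1, 1, -2]
    · intro a
      fin_cases a <;> simp
    · intro a
      fin_cases a <;>
        simp [mk6, Fin.sum_univ_three, c1, c2, c3, c4] <;> norm_num
    · intro r hr hs
      refine kernel6 hk r ?_ ?_ ?_ hs
      · intro i
        have := hr 0 i
        simp [mk6, Fin.sum_univ_three, sum_t3 hk5, Finset.sum_pair h01] at this
        rw [sub_eq_add_neg i 1]
        linear_combination this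
      · intro i
        have := hr 1 i
        simp [mk6, Fin.sum_univ_three, sum_t3 hk5, Finset.sum_pair h01] at this
        rw [sub_eq_add_neg i 1]
        linear_combination this
      · intro i
        have := hr 2 i
        simp [mk6, Fin.sum_univ_three, Finset.sum_pair hne, Finset.sum_pair h01'] at this
        rw [sub_eq_add_neg i 1]
        linear_combination this
    · intro U hU h0
      have u0 := hU 0
      have u1 := hU 1
      simp [mk6, Fin.sum_univ_three, c1, c2] at u0 u1
      rw [h0] at u0 u1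
      constructor <;> omega
    · intro U hU
      have g0 := hU 0
      have g1 := hU 1
      have g2 := hU 2
      simp [mk6, Fin.sum_univ_three, hcB, hcC, c1, c2, c3, c4] at g0 g1 g2
      have hz1 : (H.card : ℤ) + B.card + C.card = z := by exact_mod_cast h1
      have hz2 : 2 * (C.card : ℤ) + F.card = z := by exact_mod_cast h2
      have hz3 : (H.card : ℤ) - B.card - 1 ≠ 0 := by
        intro h
        apply h3
        have : (H.card : ℤ) = B.card + 1 := by linarith
        exact_mod_cast this
      have hz4 : (z : ℤ) - 3 * C.card ≠ 0 := by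
        intro h
        apply h4
        have : (z : ℤ) = 3 * C.card := by linarith
        exact_mod_cast this
      have k1 : U 0 = U 1 := by
        have h5 : 2 * (((H.card : ℤ) - B.card - 1) * (U 0 - U 1)) = 0 := by
          linear_combination g0 - g1
        have h6 : ((H.card : ℤ) - B.card - 1) * (U 0 - U 1) = 0 := by omega
        have := (mul_eq_zero.1 h6).resolve_left hz3
        linarith
      rw [← k1] at g0 g2
      have hh : (H.card : ℤ) = z - B.card - C.card := by linarith
      have hf : (F.card : ℤ) = z - 2 * C.card := by linarith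
      rw [hh] at g0
      rw [hf] at g2
      have k2 : U 0 = 0 := by
        have h5 : (4 * ((z : ℤ) + 3) * (z - 3 * C.card)) * U 0 = 0 := by
          linear_combination (2 * ((z : ℤ) - 2 * C.card) + 2) * g0 - (2 * (C.card : ℤ) + 2) * g2
        rcases mul_eq_zero.1 h5 with h6 | h6
        · rcases mul_eq_zero.1 h6 with h7 | h7
          · exfalso
            have : (0 : ℤ) ≤ z := Int.natCast_nonneg z
            linarith
          · exact absurd h7 hz4
        · exact h6
      refine ⟨k2, k1 ▸ k2, ?_⟩
      rw [k2] at g0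
      have h7 : (2 * (C.card : ℤ) + 2) * U 2 = 0 := by linear_combination g0
      rcases mul_eq_zero.1 h7 with h8 | h8
      · exfalso
        have : (0 : ℤ) ≤ C.card := Int.natCast_nonneg _
        linarith
      · exact h8

end Pool.Agent.TH417.Nut
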