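import Pool.Agent.TH417.Nut.Ring

set_option autoImplicit false

open Finset

namespace Pool.Agent.TH417.Nut

variable {k : ℕ} [NeZero k]

/-! ### symmetric sets -/

omit [NeZero k] in
theorem neg_ne (hk : k % 2 = 1) {x : ZMod k} (hx : x ≠ 0) : -x ≠ x := by
  intro h
  apply hx
  have h1 : (2 : ZMod k) * x = 0 := by
    have : x + x = 0 := by
      nth_rewrite 1 [← h]; simp
    rw [two_mul]; exact this
  have h2 : (2 : ZMod k) * (((k + 1) / 2 : ℕ) : ZMod k) = 1 := by
    have h4 : 2 * ((k + 1) / 2) = k + 1 := by omega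
    have h5 := congrArg (fun n : ℕ => (n : ZMod k)) h4
    simpa using h5
  calc x = (2 * (((k + 1) / 2 : ℕ) : ZMod k)) * x := by rw [h2, one_mul]
    _ = (((k + 1) / 2 : ℕ) : ZMod k) * (2 * x) := by ring
    _ = 0 := by rw [h1, mul_zero]

omit [NeZero k] in
/-- symmetric subsets of a symmetric set without `0`, of every even size -/
theorem exists_sym (hk : k % 2 = 1) (U : Finset (ZMod k)) (h0 : 0 ∉ U) (hU : ∀ t ∈ U, -t ∈ U)
    (m : ℕ) (hm : 2 * m ≤ U.card) :
    ∃ D : Finset (ZMod k), D ⊆ U ∧ (∀ t ∈ D, -t ∈ D) ∧ D.card = 2 * m := by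
  induction m with
  | zero => exact ⟨∅, by simp, by simp, by simp⟩
  | succ m ih =>
    obtain ⟨D, hD, hs, hc⟩ := ih (by omega)
    have h1 : ∃ x ∈ U, x ∉ D := by
      by_contra hcon
      push Not at hcon
      have := Finset.card_le_card (fun x hx => hcon x hx : U ⊆ D)
      omega
    obtain ⟨x, hxU, hxD⟩ := h1
    have hx0 : x ≠ 0 := fun h => h0 (h ▸ hxU)
    have hnx : -x ∉ D := fun h => hxD (by simpa using hs _ h)
    have hne : -x ≠ x := neg_ne hk hx0
    refine ⟨insert x (insert (-x) D), ?_, ?_, ?_⟩
    · intro t ht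
      simp only [Finset.mem_insert] at ht
      rcases ht with rfl | rfl | ht
      · exact hxU
      · exact hU _ hxU
      · exact hD ht
    · intro t ht
      simp only [Finset.mem_insert] at ht ⊢
      rcases ht with rfl | rfl | ht
      · right; left; rfl
      · left; simp
      · right; right; exact hs _ ht
    · rw [Finset.card_insert_of_notMem, Finset.card_insert_of_notMem hnx, hc]
      · ring
      · simp only [Finset.mem_insert, not_or]
        exact ⟨fun h => hne h.symm, hxD⟩

/-- the data of the first design -/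
def mk3 (H B C F : Finset (ZMod k)) (hH : ∀ t ∈ H, -t ∈ H)
    (hF : ∀ t ∈ F, -t ∈ F) (H0 : 0 ∉ H) (F0 : 0 ∉ F) (C0 : 0 ∉ C) (B1 : 1 ∉ B) (B2 : -1 ∉ B) :
    Data k where
  q := ![![H, B, C], ![B.image (fun t => -t), H, C],
    ![C.image (fun t => -t), C.image (fun t => -t), F]]
  P := ![![∅, ∅, {0}], ![∅, ∅, {0}], ![{0}, {0}, ∅]]
  R := ![![∅, {1, -1}, ∅], ![{1, -1}, ∅, ∅], ![∅, ∅, {0}]]
  hq := by
    intro a b t ht
    fin_cases a <;> fin_cases b <;> simp at ht ⊢ <;>
      first
        | exact hH _ ht
        | exact hF _ ht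
        | exact ht
        | (obtain ⟨u, hu, rfl⟩ := ht; simpa using hu)
  hP := by
    intro a b t ht
    fin_cases a <;> fin_cases b <;> simp at ht ⊢ <;> exact ht
  hR := by
    intro a b t ht
    fin_cases a <;> fin_cases b <;> simp at ht ⊢ <;>
      first
        | exact ht
        | (rcases ht with rfl | rfl <;> simp)
  dP := by
    intro a b
    fin_cases a <;> fin_cases b <;> simp [C0]
  dR := by
    intro a b
    fin_cases a <;> fin_cases b <;> simp [F0, B1, B2]
    intro x hx h
    exact B2 (neg_eq_iff_eq_neg.1 h ▸ hx)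
  q0 := by
    intro a
    fin_cases a <;> simp [H0, F0]
  P0 := by
    intro a
    fin_cases a <;> simp

theorem mod2 (D : Data k) (v : Fin 3 → ZMod k → ℤ)
    (hv : ∀ a i, ∑ b, (2 * ∑ t ∈ D.q a b, v b (i + t) + ∑ t ∈ D.P a b, v b (i + t) +
        ∑ t ∈ D.R a b, v b (i + t)) = 0) (a : Fin 3) (i : ZMod k) :
    ∑ b, (∑ t ∈ D.P a b, ((v b (i + t) : ℤ) : ZMod 2) +
      ∑ t ∈ D.R a b, ((v b (i + t) : ℤ) : ZMod 2)) = 0 := by
  have h := congrArg (Int.cast : ℤ → ZMod 2) (hv a i)
  push_cast at h
  rw [← h]
  refine Finset.sum_congr rfl fun b _ => ?_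
  have h2 : (2 : ZMod 2) = 0 := by decide
  rw [h2]; ring

omit [NeZero k] in
theorem one_ne (hk3 : 3 ≤ k) : (1 : ZMod k) ≠ -1 := by
  intro h
  have h1 : ((2 : ℕ) : ZMod k) = 0 := by
    push_cast
    have : (1 : ZMod k) + 1 = 0 := by nth_rewrite 2 [h]; simp
    rw [← this]; norm_num
  rw [ZMod.natCast_eq_zero_iff] at h1
  have := Nat.le_of_dvd (by norm_num) h1
  omega

omit [NeZero k] in
theorem odd_cast (hk : k % 2 = 1) : ((k : ℕ) : ZMod 2) = 1 := by
  have h : k = 2 * (k / 2) + 1 := by omega
  rw [h]
  push_cast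
  have h2 : (2 : ZMod 2) = 0 := by decide
  rw [h2]; ring

theorem add_self_two (x : ZMod 2) : x + x = 0 := by
  revert x; decide

theorem kernel3 (hk : k % 2 = 1) (r : Fin 3 → ZMod k → ZMod 2)
    (e0 : ∀ i, r 1 (i + 1) + r 1 (i - 1) + r 2 i = 0)
    (e1 : ∀ i, r 0 (i + 1) + r 0 (i - 1) + r 2 i = 0)
    (e2 : ∀ i, r 0 i + r 1 i + r 2 i = 0) (hs : ∑ i, r 0 i = 0) : ∀ a i, r a i = 0 := by
  have hw2 : ∀ i, r 2 (i + 2) = r 2 i := by
    intro i
    have a1 := e0 (i + 1)
    have a2 := e1 (i + 1)
    have a3 := e2 i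
    have a4 := e2 (i + 2)
    have b1 : i + 1 + 1 = i + 2 := by ring
    have b2 : i + 1 - 1 = i := by ring
    rw [b1, b2] at a1 a2
    have c1 := add_self_two (r 2 (i + 1))
    have c2 := add_self_two (r 0 (i + 2))
    have c3 := add_self_two (r 1 (i + 2))
    have c4 := add_self_two (r 0 i)
    have c5 := add_self_two (r 1 i)
    have c6 := add_self_two (r 2 i)
    linear_combination a4 - a3 - a1 - a2 + c1 + c4 + c5
  have hw := step_two hk _ hw2
  have hshift : ∀ (f : ZMod k → ZMod 2) (t : ZMod k), ∑ i, f (i + t) = ∑ i, f i := fun f t =>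
    Fintype.sum_equiv (Equiv.addRight t) _ _ (fun i => rfl)
  have hc : r 2 0 = 0 := by
    have h1 : ∑ i, (r 1 (i + 1) + r 1 (i - 1) + r 2 i) = 0 :=
      Finset.sum_eq_zero fun i _ => e0 i
    rw [Finset.sum_add_distrib, Finset.sum_add_distrib, hshift (r 1) 1] at h1
    have h2 : ∑ i, r 1 (i - 1) = ∑ i, r 1 i := by
      have := hshift (r 1) (-1)
      simpa [sub_eq_add_neg] using this
    rw [h2, add_self_two, Finset.sum_congr rfl fun i _ => hw i, Finset.sum_const,
      Finset.card_univ, ZMod.card, nsmul_eq_mul, odd_cast hk] at h1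
    simpa using h1
  have h2 : ∀ i, r 2 i = 0 := fun i => (hw i).trans hc
  have h01 : ∀ i, r 0 (i + 2) = r 0 i := by
    intro i
    have a1 := e1 (i + 1)
    have b1 : i + 1 + 1 = i + 2 := by ring
    have b2 : i + 1 - 1 = i := by ring
    rw [b1, b2, h2] at a1
    have c4 := add_self_two (r 0 i)
    linear_combination a1 - c4
  have h0 := step_two hk _ h01
  have h00 : r 0 0 = 0 := by
    rw [Finset.sum_congr rfl fun i _ => h0 i, Finset.sum_const,
      Finset.card_univ, ZMod.card, nsmul_eq_mul, odd_cast hk] at hs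
    simpa using hs
  have h0' : ∀ i, r 0 i = 0 := fun i => (h0 i).trans h00
  intro a i
  fin_cases a
  · exact h0' i
  · have := e2 i
    rw [h0', h2] at this
    simpa using this
  · exact h2 i

/-- the first design gives nut graphs -/
theorem nut3 (hk : k % 2 = 1) (hk3 : 3 ≤ k) (H B C F : Finset (ZMod k)) (hH : ∀ t ∈ H, -t ∈ H)
    (hF : ∀ t ∈ F, -t ∈ F) (H0 : 0 ∉ H) (F0 : 0 ∉ F) (C0 : 0 ∉ C) (B1 : 1 ∉ B) (B2 : -1 ∉ B)
    (z : ℕ) (h1 : H.card + B.card + C.card = z) (h2 : 2 * C.card + F.card = z)
    (h3 : H.card ≠ B.card + 1) (h4 : z ≠ 3 * C.card) :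
    (mk3 H B C F hH hF H0 F0 C0 B1 B2).gr.IsRegularOfDegree (3 + 2 * z) ∧
    IsNut (mk3 H B C F hH hF H0 F0 C0 B1 B2).gr := by
  have hne := one_ne hk3
  have hcB : (B.image (fun t => -t)).card = B.card :=
    Finset.card_image_of_injective _ neg_injective
  have hcC : (C.image (fun t => -t)).card = C.card :=
    Finset.card_image_of_injective _ neg_injective
  constructor
  · apply degree_eq
    intro a
    fin_cases a <;>
      simp [mk3, Fin.sum_univ_three, hcB, hcC, Finset.card_pair hne] <;> omega
  · apply nut_of _ ![1, 1, 2]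
    · intro a
      fin_cases a <;> simp
    · intro a
      fin_cases a <;>
        simp [mk3, Fin.sum_univ_three, Finset.card_pair hne] <;> norm_num
    · intro d hd
      have e0 : ∀ i, d 2 i - (d 1 (i + 1) + d 1 (i - 1)) = 0 := by
        intro i
        have := hd 0 i
        simp [mk3, Fin.sum_univ_three, Finset.sum_pair hne] at this
        rw [sub_eq_add_neg i 1]
        linarith
      have e1 : ∀ i, d 2 i - (d 0 (i + 1) + d 0 (i - 1)) = 0 := by
        intro i
        have := hd 1 i
        simp [mk3, Fin.sum_univ_three, Finset.sum_pair hne] at this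
        rw [sub_eq_add_neg i 1]
        linarith
      have e2 : ∀ i, d 0 i + d 1 i - d 2 i = 0 := by
        intro i
        have := hd 2 i
        simp [mk3, Fin.sum_univ_three] at this
        linarith
      have hw := step_harm (fun i => d 0 i + d 1 i) (by
        intro i
        have a0 := e0 i
        have a1 := e1 i
        have a2 := e2 i
        linarith)
      have hv := step_neg hk (fun i => d 0 i - d 1 i) (by
        intro i
        have a0 := e0 (i + 1)
        have a1 := e1 (i + 1)
        have b1 : i + 1 + 1 = i + 2 := by ring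
        have b2 : i + 1 - 1 = i := by ring
        rw [b1, b2] at a0 a1
        linarith)
      refine ⟨(d 0 0 + d 1 0) / 2, ?_⟩
      intro a i
      have a1 := hw i
      have a2 := hv i
      have a3 := e2 i
      fin_cases a
      · simp; linarith
      · simp; linarith
      · simp; linarith
    · intro u hu
      refine H2_of_int _ ?_ u hu
      intro v hv
      have hm := mod2 _ v hv
      have hcell := cell _ v hv
      have g0 := hcell 0
      have g1 := hcell 1
      have g2 := hcell 2
      simp [mk3, Fin.sum_univ_three, hcB, hcC, Finset.card_pair hne] at g0 g1 g2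
      set U0 := ∑ i, v 0 i
      set U1 := ∑ i, v 1 i
      set U2 := ∑ i, v 2 i
      have hz1 : (H.card : ℤ) + B.card + C.card = z := by exact_mod_cast h1
      have hz2 : 2 * (C.card : ℤ) + F.card = z := by exact_mod_cast h2
      have hz3 : (H.card : ℤ) - B.card - 1 ≠ 0 := by
        intro h
        apply h3
        have : (H.card : ℤ) = B.card + 1 := by linarith
        exact_mod_cast this
      have hz4 : (z : ℤ) - 3 * C.card ≠ 0 := by
        intro h
        apply h4
        have : (z : ℤ) = 3 * C.card := by linarith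
        exact_mod_cast this
      have k1 : U0 = U1 := by
        have h5 : 2 * (((H.card : ℤ) - B.card - 1) * (U0 - U1)) = 0 := by
          linear_combination g0 - g1
        have h6 : ((H.card : ℤ) - B.card - 1) * (U0 - U1) = 0 := by omega
        have := (mul_eq_zero.1 h6).resolve_left hz3
        linarith
      have k2 : U0 = 0 := by
        rw [← k1] at g0 g2
        have hh : (H.card : ℤ) = z - B.card - C.card := by linarith
        have hf : (F.card : ℤ) = z - 2 * C.card := by linarith
        rw [hh] at g0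
        rw [hf] at g2
        have h5 : (2 * (2 * (z : ℤ) + 3) * (z - 3 * C.card)) * U0 = 0 := by
          linear_combination (2 * ((z : ℤ) - 2 * C.card) + 1) * g0 - (2 * (C.card : ℤ) + 1) * g2
        rcases mul_eq_zero.1 h5 with h6 | h6
        · rcases mul_eq_zero.1 h6 with h7 | h7
          · exfalso
            have : (0 : ℤ) ≤ z := Int.natCast_nonneg z
            linarith
          · exact absurd h7 hz4
        · exact h6
      have hr := kernel3 hk (fun a i => ((v a i : ℤ) : ZMod 2)) (by
        intro i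
        have := hm 0 i
        simp [mk3, Fin.sum_univ_three, Finset.sum_pair hne] at this
        rw [sub_eq_add_neg i 1]
        exact this) (by
        intro i
        have := hm 1 i
        simp [mk3, Fin.sum_univ_three, Finset.sum_pair hne] at this
        rw [sub_eq_add_neg i 1]
        exact this) (by
        intro i
        have := hm 2 i
        simp [mk3, Fin.sum_univ_three] at this
        exact this) (by
        have := congrArg (Int.cast : ℤ → ZMod 2) k2
        simpa [U0] using this)
      intro a i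
      exact (ZMod.intCast_zmod_eq_zero_iff_dvd (v a i) 2).1 (hr a i)

end Pool.Agent.TH417.Nut
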